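import Mathlib

open Function

namespace Pool.Agent.P.MP_767d8d_lc

/-- Output word and registers. -/
abbrev Cfg : Type := List ℕ × (ℕ → ℕ)

/-- Actions of a counter machine with output letters below `k`. -/
inductive Act (k : ℕ) : Type
  | inc (r : ℕ) : Act k
  | dec (r : ℕ) : Act k
  | tst (r : ℕ) : Act k
  | out (c : Fin k) : Act k
  | skip : Act k

variable {k : ℕ}

def Act.run : Act k → Cfg → Cfg → Prop
  | .inc r, x, y => y = (x.1, update x.2 r (x.2 r + 1))
  | .dec r, x, y => 0 < x.2 r ∧ y = (x.1, update x.2 r (x.2 r - 1))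
  | .tst r, x, y => x.2 r = 0 ∧ y = x
  | .out c, x, y => y = (x.1 ++ [c.1], x.2)
  | .skip, x, y => y = x

def Act.reg : Act k → ℕ
  | .inc r => r
  | .dec r => r
  | .tst r => r
  | _ => 0

inductive Prog (k : ℕ) : Type
  | act (a : Act k) : Prog k
  | seq (p q : Prog k) : Prog k
  | alt (p q : Prog k) : Prog k
  | star (p : Prog k) : Prog k

def Prog.den : Prog k → Cfg → Cfg → Prop
  | .act a => a.run
  | .seq p q => fun x z => ∃ y, p.den x y ∧ q.den y z
  | .alt p q => fun x y => p.den x y ∨ q.den x y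
  | .star p => Relation.ReflTransGen p.den

/-! ### Programs as finite automata -/

def lab : List (Prog k) → Act k
  | .act a :: _ => a
  | _ => .skip

def nxt : List (Prog k) → List (Prog k) → Prop
  | [], _ => False
  | .act _ :: l, l' => l' = l
  | .seq p q :: l, l' => l' = p :: q :: l
  | .alt p q :: l, l' => l' = p :: l ∨ l' = q :: l
  | .star p :: l, l' => l' = l ∨ l' = p :: .star p :: l

def cl : Prog k → List (Prog k) → Set (List (Prog k))
  | .act a, l => {.act a :: l, l}
  | .seq p q, l => {.seq p q :: l} ∪ cl p (q :: l) ∪ cl q l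
  | .alt p q, l => {.alt p q :: l} ∪ cl p l ∪ cl q l
  | .star p, l => {l} ∪ cl p (.star p :: l)

theorem cl_finite (p : Prog k) : ∀ l, (cl p l).Finite := by
  induction p with
  | act a => exact fun l => (Set.finite_singleton _).insert _
  | seq p q hp hq => exact fun l => ((Set.toFinite _).union (hp _)).union (hq _)
  | alt p q hp hq => exact fun l => ((Set.toFinite _).union (hp _)).union (hq _)
  | star p hp => exact fun l => (Set.toFinite _).union (hp _)

theorem cl_mem (p : Prog k) : ∀ l, l ∈ cl p l ∧ p :: l ∈ cl p l := by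
  induction p with
  | act a => exact fun l => ⟨Or.inr rfl, Or.inl rfl⟩
  | seq p q hp hq => exact fun l => ⟨Or.inr (hq l).1, Or.inl (Or.inl rfl)⟩
  | alt p q hp hq => exact fun l => ⟨Or.inr (hq l).1, Or.inl (Or.inl rfl)⟩
  | star p hp => exact fun l => ⟨Or.inl rfl, Or.inr (hp _).1⟩

theorem cl_closed (p : Prog k) : ∀ l, ∀ m ∈ cl p l, m = l ∨ ∀ m', nxt m m' → m' ∈ cl p l := by
  induction p with
  | act a =>
    rintro l m (rfl | rfl)
    · exact Or.inr fun m' h => Or.inr h
    · exact Or.inl rfl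
  | seq p q hp hq =>
    rintro l m ((rfl | h) | h)
    · exact Or.inr fun m' h => Or.inl (Or.inr (h ▸ (cl_mem p _).2))
    · rcases hp _ m h with rfl | h'
      · exact (hq l _ (cl_mem q l).2).imp id fun h m' hm => Or.inr (h m' hm)
      · exact Or.inr fun m' hm => Or.inl (Or.inr (h' m' hm))
    · exact (hq l m h).imp id fun h m' hm => Or.inr (h m' hm)
  | alt p q hp hq =>
    rintro l m ((rfl | h) | h)
    · refine Or.inr fun m' h => ?_
      rcases h with rfl | rfl
      · exact Or.inl (Or.inr (cl_mem p _).2)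
      · exact Or.inr (cl_mem q _).2
    · exact (hp l m h).imp id fun h m' hm => Or.inl (Or.inr (h m' hm))
    · exact (hq l m h).imp id fun h m' hm => Or.inr (h m' hm)
  | star p hp =>
    rintro l m (rfl | h)
    · exact Or.inl rfl
    · refine Or.inr fun m' hm => ?_
      rcases hp _ m h with rfl | h'
      · rcases hm with rfl | rfl
        · exact Or.inl rfl
        · exact Or.inr (cl_mem p _).2
      · exact Or.inr (h' m' hm)

/-- One step of an automaton whose states carry actions. -/
def AStep {σ : Type} (lb : σ → Act k) (nx : σ → σ → Prop) (p q : σ × Cfg) : Prop :=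
  nx p.1 q.1 ∧ (lb p.1).run p.2 q.2

theorem reach_of_den (p : Prog k) : ∀ l x y, p.den x y →
    Relation.ReflTransGen (AStep lab nxt) (p :: l, x) (l, y) := by
  induction p with
  | act a => exact fun l x y h => .single ⟨rfl, h⟩
  | seq p q hp hq =>
    rintro l x z ⟨y, h1, h2⟩
    exact .head (b := (p :: q :: l, x)) ⟨rfl, rfl⟩ ((hp _ _ _ h1).trans (hq _ _ _ h2))
  | alt p q hp hq =>
    rintro l x y (h | h)
    · exact .head (b := (p :: l, x)) ⟨Or.inl rfl, rfl⟩ (hp _ _ _ h)
    · exact .head (b := (q :: l, x)) ⟨Or.inr rfl, rfl⟩ (hq _ _ _ h)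
  | star p hp =>
    intro l x y h
    induction h using Relation.ReflTransGen.head_induction_on with
    | refl => exact .single ⟨Or.inl rfl, rfl⟩
    | @head u _ h1 _ ih =>
      exact .head (b := (p :: .star p :: l, u)) ⟨Or.inr rfl, rfl⟩ ((hp _ _ _ h1).trans ih)

def denL : List (Prog k) → Cfg → Cfg → Prop
  | [], x, z => z = x
  | p :: l, x, z => ∃ y, p.den x y ∧ denL l y z

theorem denL_of_reach {s : List (Prog k) × Cfg} {y : Cfg}
    (h : Relation.ReflTransGen (AStep lab nxt) s ([], y)) : denL s.1 s.2 y := by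
  induction h using Relation.ReflTransGen.head_induction_on with
  | refl => rfl
  | @head a c h1 _ ih =>
    obtain ⟨l, x⟩ := a
    obtain ⟨l', x'⟩ := c
    obtain ⟨h2, h3⟩ := h1
    rcases l with _ | ⟨a | ⟨p, q⟩ | ⟨p, q⟩ | p, l⟩
    · exact h2.elim
    · obtain rfl : l' = l := h2
      exact ⟨x', h3, ih⟩
    · obtain rfl : l' = _ := h2
      obtain rfl : x' = x := h3
      obtain ⟨u, h4, v, h5, h6⟩ := ih
      exact ⟨v, ⟨u, h4, h5⟩, h6⟩
    · obtain rfl : x' = x := h3
      rcases h2 with h2 | h2 <;> obtain rfl : l' = _ := h2 <;> obtain ⟨u, h4, h5⟩ := ih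
      · exact ⟨u, Or.inl h4, h5⟩
      · exact ⟨u, Or.inr h4, h5⟩
    · obtain rfl : x' = x := h3
      rcases h2 with h2 | h2 <;> obtain rfl : l' = _ := h2
      · exact ⟨x', .refl, ih⟩
      · obtain ⟨u, h4, v, h5, h6⟩ := ih
        exact ⟨v, .head h4 h5, h6⟩

theorem exists_aut (p : Prog k) : ∃ (σ : Type) (_ : Finite σ) (lb : σ → Act k)
    (nx : σ → σ → Prop) (s t : σ), ∀ x y,
      Relation.ReflTransGen (AStep lb nx) (s, x) (t, y) ↔ p.den x y := by
  refine ⟨cl p [], (cl_finite p []).to_subtype, fun m => lab m.1, fun m m' => nxt m.1 m'.1,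
    ⟨_, (cl_mem p []).2⟩, ⟨_, (cl_mem p []).1⟩, fun x y => ⟨fun h => ?_, fun h => ?_⟩⟩
  · have h1 : Relation.ReflTransGen (AStep lab nxt) ([p], x) ([], y) :=
      Relation.ReflTransGen.lift (p := AStep lab nxt)
        (fun a : cl p [] × Cfg => (a.1.1, a.2)) (fun a b h => h) _ _ h
    obtain ⟨u, h2, rfl⟩ := denL_of_reach h1
    exact h2
  · have key : ∀ b, Relation.ReflTransGen (AStep lab nxt) ([p], x) b → ∃ hb : b.1 ∈ cl p [],
        Relation.ReflTransGen (AStep (fun m : cl p [] => lab m.1) fun m m' => nxt m.1 m'.1)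
          (⟨_, (cl_mem p []).2⟩, x) (⟨b.1, hb⟩, b.2) := by
      intro b hb
      induction hb with
      | refl => exact ⟨_, .refl⟩
      | @tail b c _ h2 ih =>
        obtain ⟨h3, h4⟩ := ih
        rcases cl_closed p [] _ h3 with e | h5
        · have h6 := h2.1
          rw [e] at h6
          exact h6.elim
        · exact ⟨h5 _ h2.1, h4.tail h2⟩
    exact (key _ (reach_of_den p [] x y h)).2

/-! ### Primitive recursive functions -/

/-- The program `p` computes `φ` on the registers. -/
def Fn (p : Prog k) (φ : (ℕ → ℕ) → ℕ → ℕ) : Prop := ∀ x y, p.den x y ↔ y = (x.1, φ x.2)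

theorem Fn.seq {p q : Prog k} {φ ψ} (hp : Fn p φ) (hq : Fn q ψ) :
    Fn (p.seq q) fun x => ψ (φ x) := fun x z =>
  ⟨fun ⟨y, h1, h2⟩ => by rw [(hq _ _).1 h2, (hp _ _).1 h1],
    fun h => ⟨_, (hp _ _).2 rfl, (hq _ _).2 h⟩⟩

theorem fn_skip : Fn (.act .skip : Prog k) fun x => x := fun _ _ => Iff.rfl

theorem fn_inc (r : ℕ) : Fn (.act (.inc r) : Prog k) fun x => update x r (x r + 1) :=
  fun _ _ => Iff.rfl

/-- Repeat `p` as often as register `a` says. -/
def drain (a : ℕ) (p : Prog k) : Prog k :=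
  .seq (.star (.seq (.act (.dec a)) p)) (.act (.tst a))

theorem Fn.drain {p : Prog k} {φ} (hp : Fn p φ) {a : ℕ} (ha : ∀ x, φ x a = x a) :
    Fn (drain a p) fun x => (fun z => φ (update z a (z a - 1)))^[x a] x := by
  intro x y
  beta_reduce
  constructor
  · rintro ⟨z, h1, h2, rfl⟩
    induction h1 using Relation.ReflTransGen.head_induction_on with
    | refl => rw [h2]; rfl
    | @head u v h3 _ ih =>
      obtain ⟨_, ⟨h4, rfl⟩, h5⟩ := h3
      obtain rfl := (hp _ _).1 h5
      rw [ih]
      obtain ⟨n, hn⟩ := Nat.exists_eq_add_one_of_ne_zero h4.ne'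
      simp only [ha, update_self]
      rw [hn, iterate_succ_apply, hn]
      rfl
  · rintro rfl
    generalize hn : x.2 a = n
    induction n generalizing x with
    | zero => exact ⟨x, .refl, hn, rfl⟩
    | succ n ih =>
      obtain ⟨z, h1, h2⟩ := ih (x.1, φ (update x.2 a (x.2 a - 1))) (by simp [ha, hn])
      exact ⟨z, .head ⟨_, ⟨by omega, rfl⟩, (hp _ _).2 rfl⟩ h1, h2⟩

theorem exists_dr (a b c : ℕ) (hb : a ≠ b) (hc : a ≠ c) (hbc : b ≠ c) : ∃ (p : Prog k) (φ : _),
    Fn p φ ∧ ∀ x r, φ x r = if r = a then 0 else if r = b ∨ r = c then x r + x a else x r := by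
  refine ⟨_, _, ((fn_inc b).seq (fn_inc c)).drain (a := a) (fun x => by simp [hb, hc]),
    fun x r => ?_⟩
  generalize hn : x a = n
  induction n generalizing x with
  | zero =>
    by_cases h : r = a <;> simp [h, hn]
  | succ n ih =>
    rw [iterate_succ_apply, ih _ (by simp [hb, hc, hn])]
    by_cases h : r = a
    · simp [h]
    · by_cases h1 : r = b
      · subst h1
        simp [h, hbc]
        omega
      · by_cases h2 : r = c
        · subst h2
          simp [h, h1]
          omega
        · simp [h, h1, h2]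

theorem exists_zero (a : ℕ) : ∃ (p : Prog k) (φ : _),
    Fn p φ ∧ ∀ x r, φ x r = if r = a then 0 else x r := by
  refine ⟨_, _, fn_skip.drain (a := a) fun x => rfl, fun x r => ?_⟩
  generalize hn : x a = n
  induction n generalizing x with
  | zero => by_cases h : r = a <;> simp [h, hn]
  | succ n ih =>
    rw [iterate_succ_apply, ih _ (by simp [hn])]
    by_cases h : r = a <;> simp [h]

variable (k) in
/-- Some program puts `F x` in register `o` and keeps the other registers below `b`. -/
abbrev Cmp (F : (ℕ → ℕ) → ℕ) (o b : ℕ) : Prop :=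
  ∃ (p : Prog k) (φ : _), Fn p φ ∧ ∀ x, φ x o = F x ∧ ∀ r < b, r ≠ o → φ x r = x r

theorem cmp_get {a o b : ℕ} (ha : a < b) (ho : o < b) : Cmp k (fun x => x a) o b := by
  obtain ⟨_, _, p1, h1⟩ := exists_zero (k := k) b
  obtain ⟨_, _, p2, h2⟩ := exists_zero (k := k) (b + 1)
  obtain ⟨_, _, p3, h3⟩ := exists_dr (k := k) a b (b + 1) (by omega) (by omega) (by omega)
  obtain ⟨_, _, p4, h4⟩ := exists_dr (k := k) b a (b + 2) (by omega) (by omega) (by omega)
  obtain ⟨_, _, p5, h5⟩ := exists_zero (k := k) o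
  obtain ⟨_, _, p6, h6⟩ := exists_dr (k := k) (b + 1) o (b + 2) (by omega) (by omega) (by omega)
  refine ⟨_, _, ((((p1.seq p2).seq p3).seq p4).seq p5).seq p6, fun x => ⟨?_, fun r hr hro => ?_⟩⟩
  · simp only [h1, h2, h3, h4, h5, h6]
    grind
  · simp only [h1, h2, h3, h4, h5, h6]
    grind

theorem cmp_prim {n : ℕ} {f : List.Vector ℕ n → ℕ} (hf : Nat.Primrec' f) :
    ∀ (inp : Fin n → ℕ) (o b : ℕ), (∀ i, inp i < b) → o < b →
      Cmp k (fun x => f (List.Vector.ofFn fun i => x (inp i))) o b := by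
  induction hf with
  | zero =>
    intro inp o b _ _
    obtain ⟨_, _, p1, h1⟩ := exists_zero (k := k) o
    exact ⟨_, _, p1, fun x => ⟨by simp [h1], fun r _ h => by simp [h1, h]⟩⟩
  | succ =>
    intro inp o b hi ho
    obtain ⟨_, _, p1, h1⟩ := cmp_get (k := k) (hi 0) ho
    refine ⟨_, _, p1.seq (fn_inc o), fun x => ⟨?_, fun r hr h => ?_⟩⟩
    · simp [(h1 x).1]
    · simp [h, (h1 x).2 r hr h]
  | get i =>
    intro inp o b hi ho
    simpa only [List.Vector.get_ofFn] using cmp_get (hi i) ho
  | @comp m n f g _ _ hf hg =>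
    intro inp o b hi ho
    have key : ∀ s : Finset (Fin n), ∃ (p : Prog k) (φ : _), Fn p φ ∧ ∀ x,
        (∀ i ∈ s, φ x (b + i) = g i (List.Vector.ofFn fun i => x (inp i))) ∧
          ∀ r < b, φ x r = x r := by
      intro s
      induction s using Finset.induction_on with
      | empty => exact ⟨_, _, fn_skip, fun x => ⟨by simp, fun _ _ => rfl⟩⟩
      | insert j s hj ih =>
        obtain ⟨_, φ, p1, h1⟩ := ih
        obtain ⟨_, ψ, p2, h2⟩ := hg j inp (b + j) (b + n) (fun i => (hi i).trans_le (by omega))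
          (by omega)
        refine ⟨_, _, p1.seq p2, fun x => ⟨fun i h => ?_, fun r hr => ?_⟩⟩
        · rcases Finset.mem_insert.1 h with rfl | h
          · rw [(h2 _).1]
            simp only [fun i => (h1 x).2 _ (hi i)]
          · have : (i : ℕ) ≠ j := fun e => hj (Fin.ext e ▸ h)
            rw [(h2 _).2 _ (by omega) (by omega), (h1 x).1 i h]
        · rw [(h2 _).2 _ (by omega) (by omega), (h1 x).2 r hr]
    obtain ⟨_, φ, p1, h1⟩ := key Finset.univ
    obtain ⟨_, ψ, p2, h2⟩ := hf (fun i => b + i) o (b + n) (fun i => by omega) (by omega)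
    refine ⟨_, _, p1.seq p2, fun x => ⟨?_, fun r hr h => ?_⟩⟩
    · rw [(h2 _).1]
      simp only [fun i => (h1 x).1 i (Finset.mem_univ i)]
    · rw [(h2 _).2 _ (by omega) h, (h1 x).2 r hr]
  | @prec n f g _ _ hf hg =>
    intro inp o b hi ho
    have hi' : ∀ i, inp i < b + 3 := fun i => (hi i).trans_le (by omega)
    obtain ⟨_, φ1, p1, h1⟩ := hf (fun i => inp i.succ) (b + 1) (b + 3) (fun i => hi' _) (by omega)
    obtain ⟨_, φ2, p2, h2⟩ := exists_zero (k := k) b
    obtain ⟨_, φ3, p3, h3⟩ := cmp_get (k := k) (hi' 0) (show b + 2 < b + 3 by omega)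
    obtain ⟨_, φ4, p4, h4⟩ := hg (Fin.cons b (Fin.cons (b + 1) fun i => inp i.succ)) (b + 1) (b + 3)
      (fun i => Fin.cases (by simp) (fun i => Fin.cases (by simp) (fun i => by simpa using hi' _) i)
        i) (by omega)
    obtain ⟨_, φ5, p5, h5⟩ := cmp_get (k := k) (show b + 1 < b + 3 by omega)
      (show o < b + 3 by omega)
    have p6 := (p4.seq (fn_inc b)).drain (a := b + 2) fun x => by
      simp [(h4 x).2 (b + 2) (by omega) (by omega)]
    refine ⟨_, _, (((p1.seq p2).seq p3).seq p6).seq p5, fun x => ?_⟩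
    beta_reduce at h1 h3 h4 h5 ⊢
    generalize hz : φ3 (φ2 (φ1 x)) = z
    have z1 : ∀ r < b, z r = x r := fun r hr => by
      rw [← hz, (h3 _).2 r (by omega) (by omega), h2, if_neg (by omega),
        (h1 x).2 r (by omega) (by omega)]
    have z2 : z (b + 2) = x (inp 0) := by
      have := hi 0
      rw [← hz, (h3 _).1, h2, if_neg (by omega), (h1 x).2 _ (by omega) (by omega)]
    have z3 : z b = 0 := by rw [← hz, (h3 _).2 b (by omega) (by omega), h2, if_pos rfl]
    have z4 : z (b + 1) = f (List.Vector.ofFn fun i => x (inp i.succ)) := by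
      rw [← hz, (h3 _).2 _ (by omega) (by omega), h2, if_neg (by omega), (h1 x).1]
    have it : ∀ (m : ℕ) (y : ℕ → ℕ), y = (fun w => update (φ4 (update w (b + 2) (w (b + 2) - 1))) b
        (φ4 (update w (b + 2) (w (b + 2) - 1)) b + 1))^[m] z → (∀ r < b, y r = x r) ∧ y b = m ∧
        y (b + 1) = m.rec (f (List.Vector.ofFn fun i => x (inp i.succ))) fun u IH =>
          g (u ::ᵥ IH ::ᵥ List.Vector.ofFn fun i => x (inp i.succ)) := by
      intro m
      induction m with
      | zero => exact fun y e => by rw [e]; exact ⟨z1, z3, z4⟩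
      | succ m ih =>
        intro y e
        rw [iterate_succ_apply'] at e
        obtain ⟨i1, i2, i3⟩ := ih _ rfl
        generalize (fun w => update (φ4 (update w (b + 2) (w (b + 2) - 1))) b
          (φ4 (update w (b + 2) (w (b + 2) - 1)) b + 1))^[m] z = w at e i1 i2 i3
        subst e
        refine ⟨fun r hr => ?_, ?_, ?_⟩
        · rw [update_of_ne (by omega), (h4 _).2 r (by omega) (by omega), update_of_ne (by omega),
            i1 r hr]
        · rw [update_self, (h4 _).2 b (by omega) (by omega), update_of_ne (by omega), i2]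
        · rw [update_of_ne (by omega), (h4 _).1]
          refine congrArg g ?_
          simp only [List.Vector.ofFn, Fin.cons_zero, Fin.cons_succ]
          rw [update_of_ne (by omega), update_of_ne (by omega), i2, i3]
          refine congrArg _ (congrArg _ (congrArg _ (funext fun i => ?_)))
          have := hi i.succ
          rw [update_of_ne (by omega), i1 _ this]
    obtain ⟨i1, -, i3⟩ := it _ _ rfl
    refine ⟨?_, fun r hr h => ?_⟩
    · rw [(h5 _).1, i3, z2]
      simp only [List.Vector.head_ofFn, List.Vector.tail_ofFn]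
    · rw [(h5 _).2 r (by omega) h, i1 r hr]

end Pool.Agent.P.MP_767d8d_lc
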