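import Mathlib

namespace Pool.Agent.P.MP_767d8d_lc

/-- Symbols of sentential forms: the start symbol, nonterminals of the two components, and
terminals (natural numbers). -/
inductive Symb (k₁ k₂ : ℕ) : Type
  | start : Symb k₁ k₂
  | nt₁ (A : Fin k₁) : Symb k₁ k₂
  | nt₂ (A : Fin k₂) : Symb k₁ k₂
  | ter (a : ℕ) : Symb k₁ k₂

/-- A two-component even matrix grammar with nonterminal alphabets `Fin k₁`, `Fin k₂`. Words over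
`N_i ∪ T` are lists over `Fin k_i ⊕ ℕ`. -/
structure EMG : Type where
  k₁ : ℕ
  k₂ : ℕ
  termRules : Finset (List ℕ)
  startRules : Finset (List (Fin k₁ ⊕ ℕ) × List (Fin k₂ ⊕ ℕ))
  matRules : Finset ((Fin k₁ × Fin k₂) × List (Fin k₁ ⊕ ℕ) × List (Fin k₂ ⊕ ℕ))
  wf : ∀ r ∈ startRules, (∃ A, Sum.inl A ∈ r.1) ∧ (∃ A, Sum.inl A ∈ r.2)

/-- A word over `N₁ ∪ T` as a word of symbols. -/
def emb₁ {k₁ k₂ : ℕ} (u : List (Fin k₁ ⊕ ℕ)) : List (Symb k₁ k₂) :=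
  u.map (Sum.elim Symb.nt₁ Symb.ter)

/-- A word over `N₂ ∪ T` as a word of symbols. -/
def emb₂ {k₁ k₂ : ℕ} (u : List (Fin k₂ ⊕ ℕ)) : List (Symb k₁ k₂) :=
  u.map (Sum.elim Symb.nt₂ Symb.ter)

/-- One derivation step, in mode `0` or mode `1`. -/
def Rewrites (G : EMG) (mode : Fin 2) (x y : List (Symb G.k₁ G.k₂)) : Prop :=
  (∃ v ∈ G.termRules, x = [Symb.start] ∧ y = v.map Symb.ter) ∨
  (∃ r ∈ G.startRules, x = [Symb.start] ∧ y = emb₁ r.1 ++ emb₂ r.2) ∨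
  (∃ r ∈ G.matRules, ∃ (u₁ w₁ : List (Fin G.k₁ ⊕ ℕ)) (u₂ w₂ : List (Fin G.k₂ ⊕ ℕ)),
    x = emb₁ (u₁ ++ [Sum.inl r.1.1] ++ w₁) ++ emb₂ (u₂ ++ [Sum.inl r.1.2] ++ w₂) ∧
    y = emb₁ (u₁ ++ r.2.1 ++ w₁) ++ emb₂ (u₂ ++ r.2.2 ++ w₂) ∧
    (mode = 1 → Sum.inl r.1.1 ∉ u₁ ∧ Sum.inl r.1.2 ∉ u₂))

/-- The language generated in the given mode. -/
def genLang (G : EMG) (mode : Fin 2) : Set (List ℕ) :=
  {x | Relation.ReflTransGen (Rewrites G mode) [Symb.start] (x.map Symb.ter)}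

end Pool.Agent.P.MP_767d8d_lc
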