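import Pool.Agent.P.MP_767d8d_lc.Defs

namespace Pool.Agent.P.MP_767d8d_lc

variable {α σ : Type}

/-- Grammars whose second component is a finite control. -/
def St (R : Set (α × σ × List (α ⊕ ℕ) × Option σ)) (p q : List (α ⊕ ℕ) × Option σ) : Prop :=
  ∃ A s v u w, (A, s, v, q.2) ∈ R ∧ p = (u ++ Sum.inl A :: w, some s) ∧ q.1 = u ++ v ++ w ∧
    Sum.inl A ∉ u

theorem sg_lang [Finite α] [Finite σ] (R : Set (α × σ × List (α ⊕ ℕ) × Option σ))
    (hR : R.Finite) (S : Set (List (α ⊕ ℕ) × σ)) (hS : S.Finite)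
    (hS' : ∀ s ∈ S, ∃ A, Sum.inl A ∈ s.1) (T : Finset (List ℕ)) :
    ∃ G : EMG, ∀ x, x ∈ genLang G 1 ↔ x ∈ T ∨
      ∃ s ∈ S, Relation.ReflTransGen (St R) (s.1, some s.2) (x.map Sum.inr, none) := by
  classical
  obtain ⟨k₁, ⟨e⟩⟩ := Finite.exists_equiv_fin α
  obtain ⟨k₂, ⟨e'⟩⟩ := Finite.exists_equiv_fin σ
  let m₁ : List (α ⊕ ℕ) → List (Fin k₁ ⊕ ℕ) := List.map (Sum.map e id)
  let m₂ : Option σ → List (Fin k₂ ⊕ ℕ) := fun o => o.toList.map fun s => Sum.inl (e' s)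
  let G : EMG := ⟨k₁, k₂, T, hS.toFinset.image fun s => (m₁ s.1, m₂ (some s.2)),
    hR.toFinset.image fun r => ((e r.1, e' r.2.1), m₁ r.2.2.1, m₂ r.2.2.2), by
      intro r hr
      obtain ⟨s, hs, rfl⟩ := Finset.mem_image.1 hr
      obtain ⟨A, hA⟩ := hS' s (hS.mem_toFinset.1 hs)
      exact ⟨⟨e A, List.mem_map.2 ⟨_, hA, rfl⟩⟩, e' s.2, by simp [m₂]⟩⟩
  let f : α ⊕ ℕ → Symb k₁ k₂ := Sum.elim (fun A => Symb.nt₁ (e A)) Symb.ter
  let enc : List (α ⊕ ℕ) × Option σ → List (Symb k₁ k₂) := fun p => p.1.map f ++ emb₂ (m₂ p.2)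
  have hf : ∀ u, emb₁ (m₁ u) = u.map f := fun u => by
    simp only [emb₁, m₁, List.map_map]
    exact List.map_congr_left fun a _ => by cases a <;> rfl
  have finj : Function.Injective f := by
    rintro (a | a) (b | b) h <;> simp_all [f]
  have h1 : ∀ p q, St R p q → Rewrites G 1 (enc p) (enc q) := by
    rintro _ ⟨q, o⟩ ⟨A, s, v, u, w, h, rfl, rfl, hA⟩
    refine Or.inr (Or.inr ⟨_, Finset.mem_image.2 ⟨_, hR.mem_toFinset.2 h, rfl⟩, m₁ u, m₁ w, [], [],
      ?_, ?_, fun _ => ⟨fun h => hA ?_, List.not_mem_nil⟩⟩)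
    · simp [enc, ← hf, m₁, m₂]
    · simp [enc, ← hf, m₁]
    · obtain ⟨a, ha, h⟩ := List.mem_map.1 h
      rcases a with a | a
      · have : a = A := e.injective (Sum.inl.inj h)
        exact this ▸ ha
      · cases h
  have h0 : ∀ p, enc p ≠ [Symb.start] := fun p h => by
    have : Symb.start ∈ enc p := by simp [h]
    rcases List.mem_append.1 this with h | h <;> obtain ⟨a, -, ha⟩ := List.mem_map.1 h <;>
      cases a <;> cases ha
  have h2 : ∀ p y, Rewrites G 1 (enc p) y → ∃ q, St R p q ∧ y = enc q := by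
    rintro ⟨u, o⟩ y (⟨_, _, h, _⟩ | ⟨_, _, h, _⟩ | ⟨r, hr, u₁, w₁, u₂, w₂, h, rfl, hl⟩)
    · exact absurd h (h0 _)
    · exact absurd h (h0 _)
    obtain ⟨⟨A, s, v, o'⟩, hr', rfl⟩ := Finset.mem_image.1 hr
    have hn : Symb.nt₂ (e' s) ∉ u.map f := fun h => by
      obtain ⟨a, -, ha⟩ := List.mem_map.1 h
      cases a <;> cases ha
    have h' : u.map f ++ emb₂ (m₂ o) = (emb₁ u₁ ++ Symb.nt₁ (e A) :: (emb₁ w₁ ++ emb₂ u₂)) ++
        Symb.nt₂ (e' s) :: emb₂ w₂ := by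
      simpa [emb₁, emb₂, enc] using h
    have key : u.map f = emb₁ u₁ ++ Symb.nt₁ (e A) :: (emb₁ w₁ ++ emb₂ u₂) ∧ o = some s ∧
        emb₂ (k₁ := k₁) w₂ = [] := by
      rcases List.append_eq_append_iff.1 h' with ⟨a, ha, hb⟩ | ⟨c, hc, hd⟩
      · rcases o with _ | s'
        · simp [m₂, emb₂] at hb
        · rcases a with _ | ⟨z, a⟩
          · simp only [m₂, emb₂, Option.toList_some, List.map_cons, List.map_nil, Sum.elim_inl,
              List.nil_append, List.cons.injEq, Symb.nt₂.injEq, e'.apply_eq_iff_eq] at hb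
            exact ⟨by simpa using ha.symm, congrArg _ hb.1, hb.2.symm⟩
          · simp [m₂, emb₂] at hb
      · rcases c with _ | ⟨z, c⟩
        · rcases o with _ | s'
          · simp [m₂, emb₂] at hd
          · simp only [m₂, emb₂, Option.toList_some, List.map_cons, List.map_nil, Sum.elim_inl,
              List.nil_append, List.cons.injEq, Symb.nt₂.injEq, e'.apply_eq_iff_eq] at hd
            exact ⟨by simpa using hc, congrArg _ hd.1.symm, hd.2⟩
        · obtain rfl : Symb.nt₂ (e' s) = z := (List.cons.inj hd).1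
          exact absurd (by rw [hc]; simp) hn
    obtain ⟨k1, rfl, k3⟩ := key
    obtain ⟨p₁, p₂, rfl, e1, e2⟩ := List.map_eq_append_iff.1 k1
    obtain ⟨z, p₃, rfl, e3, e4⟩ := List.map_eq_cons_iff.1 e2
    obtain rfl : z = Sum.inl A := finj e3
    refine ⟨(p₁ ++ v ++ p₃, o'), ⟨A, s, v, p₁, p₃, hR.mem_toFinset.1 hr', rfl, rfl, fun h => ?_⟩, ?_⟩
    · have : Symb.nt₁ (e A) ∈ emb₁ (k₂ := k₂) u₁ := e1 ▸ List.mem_map.2 ⟨_, h, rfl⟩
      obtain ⟨a, ha, h⟩ := List.mem_map.1 this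
      rcases a with a | a
      · exact (hl rfl).1 (Symb.nt₁.inj h ▸ ha)
      · cases h
    · have e5 : ∀ a b : List (Fin k₁ ⊕ ℕ), emb₁ (k₂ := k₂) (a ++ b) = emb₁ a ++ emb₁ b :=
        fun a b => List.map_append
      have e6 : ∀ a b : List (Fin k₂ ⊕ ℕ), emb₂ (k₁ := k₁) (a ++ b) = emb₂ a ++ emb₂ b :=
        fun a b => List.map_append
      simp only [enc, e5, e6, hf, List.map_append, e1, e4, k3, List.append_assoc, List.append_nil]
  have h3 : ∀ p (x : List ℕ), x.map Symb.ter = enc p → p = (x.map Sum.inr, none) := by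
    rintro ⟨u, _ | s⟩ x h
    · refine Prod.ext (List.map_injective_iff.2 finj ?_) rfl
      simpa [enc, m₂, emb₂, f, Function.comp_def] using h.symm
    · have : Symb.nt₂ (e' s) ∈ x.map (Symb.ter (k₁ := k₁)) := by simp [h, enc, m₂, emb₂]
      simp at this
  have h4 : ∀ p y, Relation.ReflTransGen (Rewrites G 1) (enc p) y →
      ∃ q, Relation.ReflTransGen (St R) p q ∧ y = enc q := fun p y h => by
    induction h with
    | refl => exact ⟨p, .refl, rfl⟩
    | tail _ h ih =>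
      obtain ⟨q, hq, rfl⟩ := ih
      obtain ⟨q', hq', rfl⟩ := h2 _ _ h
      exact ⟨q', hq.tail hq', rfl⟩
  have h5 : ∀ x : List ℕ, x.map Symb.ter = enc (x.map Sum.inr, none) := fun x => by
    simp [enc, m₂, emb₂, f, Function.comp_def]
  refine ⟨G, fun x => ⟨fun h => ?_, ?_⟩⟩
  · rcases Relation.ReflTransGen.cases_head h with h | ⟨y, h, h'⟩
    · exact absurd (h5 x ▸ h).symm (h0 _)
    rcases h with ⟨v, hv, -, rfl⟩ | ⟨r, hr, -, rfl⟩ | ⟨r, _, u₁, w₁, u₂, w₂, h, -⟩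
    · rw [h5 v] at h'
      obtain ⟨q, hq, e⟩ := h4 _ _ h'
      rcases Relation.ReflTransGen.cases_head hq with rfl | ⟨_, ⟨_, _, _, _, _, _, h, _⟩, _⟩
      · obtain rfl : v = x :=
          List.map_injective_iff.2 Sum.inr_injective (congrArg Prod.fst (h3 _ _ e))
        exact Or.inl hv
      · exact absurd (congrArg Prod.snd h) (by simp)
    · obtain ⟨s, hs, rfl⟩ := Finset.mem_image.1 hr
      rw [hf] at h'
      obtain ⟨q, hq, e⟩ := h4 (s.1, some s.2) _ h'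
      exact Or.inr ⟨s, hS.mem_toFinset.1 hs, h3 _ _ e ▸ hq⟩
    · have := congrArg List.length h
      simp [emb₁, emb₂] at this
      omega
  · rintro (h | ⟨s, hs, h⟩)
    · exact .single (Or.inl ⟨x, h, rfl, rfl⟩)
    · refine .head (Or.inr (Or.inl ⟨_, Finset.mem_image.2 ⟨s, hS.mem_toFinset.2 hs, rfl⟩, rfl,
        rfl⟩)) ?_
      rw [hf]
      exact h5 x ▸ Relation.ReflTransGen.lift enc h1 _ _ h

end Pool.Agent.P.MP_767d8d_lc
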