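import Pool.Agent.P.MP_767d8d_lc.CM
import Pool.Agent.P.MP_767d8d_lc.SG

open Function

namespace Pool.Agent.P.MP_767d8d_lc

theorem first_unique {β : Type} {a : β} : ∀ {u₁ v₁ u₂ v₂ : List β},
    u₁ ++ a :: u₂ = v₁ ++ a :: v₂ → a ∉ u₁ → a ∉ v₁ → u₁ = v₁ ∧ u₂ = v₂
  | [], [], _, _, h, _, _ => ⟨rfl, (List.cons.inj h).2⟩
  | [], _ :: _, _, _, h, _, hv => absurd ((List.cons.inj h).1 ▸ List.mem_cons_self) hv
  | _ :: _, [], _, _, h, hu, _ => absurd ((List.cons.inj h).1 ▸ List.mem_cons_self) hu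
  | _ :: _, _ :: _, _, _, h, hu, hv => by
    obtain ⟨rfl, h'⟩ := List.cons.inj h
    obtain ⟨rfl, rfl⟩ := first_unique h' (fun h => hu (List.mem_cons_of_mem _ h))
      (fun h => hv (List.mem_cons_of_mem _ h))
    exact ⟨rfl, rfl⟩

/-- Nonterminals: the marker `none`, the register symbols, the generator and the emitter. -/
abbrev NT (K : ℕ) : Type := Option (Fin K) ⊕ Bool

/-- Control states: machine states, pending tests, the final phase and the junk phase. -/
abbrev CS (σ : Type) (K : ℕ) : Type := σ ⊕ (Fin K × σ) ⊕ Bool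

variable {k K : ℕ} {σ : Type}

def sY (a : Option (Fin K)) : NT K ⊕ ℕ := .inl (.inl a)

def sG : NT K ⊕ ℕ := .inl (.inr true)

def sO : NT K ⊕ ℕ := .inl (.inr false)

def form (l : List (Option (Fin K))) (w : List ℕ) (l' : List (Option (Fin K))) :
    List (NT K ⊕ ℕ) :=
  sG :: (l.map sY ++ (w.map Sum.inr ++ sO :: l'.map sY))

inductive Rl (lb : σ → Act k) (nx : σ → σ → Prop) (t : σ) :
    NT K → CS σ K → List (NT K ⊕ ℕ) → Option (CS σ K) → Prop
  | inc {q q'} {r : Fin K} : lb q = .inc r → nx q q' →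
      Rl lb nx t (.inr true) (.inl q) [sG, sY (some r)] (some (.inl q'))
  | dec {q q'} {r : Fin K} : lb q = .dec r → nx q q' →
      Rl lb nx t (.inl (some r)) (.inl q) [] (some (.inl q'))
  | tst {q q'} {r : Fin K} : lb q = .tst r → nx q q' →
      Rl lb nx t (.inl none) (.inl q) [sY (some r)] (some (.inr (.inl (r, q'))))
  | bak {q'} {r : Fin K} :
      Rl lb nx t (.inl (some r)) (.inr (.inl (r, q'))) [sY none] (some (.inl q'))
  | out {q q'} {c : Fin k} : lb q = .out c → nx q q' →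
      Rl lb nx t (.inr false) (.inl q) [.inr c, sO] (some (.inl q'))
  | skip {q q'} : lb q = .skip → nx q q' →
      Rl lb nx t (.inr true) (.inl q) [sG] (some (.inl q'))
  | fin : Rl lb nx t (.inl none) (.inl t) [.inr k] (some (.inr (.inr true)))
  | ers {a} : Rl lb nx t a (.inr (.inr true)) [] (some (.inr (.inr true)))
  | stop : Rl lb nx t (.inr true) (.inr (.inr true)) [] none
  | jout {c : Fin k} :
      Rl lb nx t (.inr false) (.inr (.inr false)) [.inr c, sO] (some (.inr (.inr false)))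
  | jend : Rl lb nx t (.inr false) (.inr (.inr false)) [] none

def rules (lb : σ → Act k) (nx : σ → σ → Prop) (t : σ) (K : ℕ) :
    Set (NT K × CS σ K × List (NT K ⊕ ℕ) × Option (CS σ K)) :=
  {r | Rl lb nx t r.1 r.2.1 r.2.2.1 r.2.2.2}

theorem rules_finite [Finite σ] (lb : σ → Act k) (nx : σ → σ → Prop) (t : σ) :
    (rules lb nx t K).Finite := by
  have hV : ((List.map (Sum.map id Fin.val)) ''
      {v : List (NT K ⊕ Fin (k + 1)) | v.length ≤ 2}).Finite :=
    (List.finite_length_le _ 2).image _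
  refine (Set.finite_univ.prod (Set.finite_univ.prod (hV.prod Set.finite_univ))).subset ?_
  rintro ⟨a, s, v, o⟩ h
  refine ⟨trivial, trivial, ?_, trivial⟩
  cases h with
  | inc => exact ⟨[.inl _, .inl _], by simp, rfl⟩
  | dec => exact ⟨[], by simp, rfl⟩
  | tst => exact ⟨[.inl _], by simp, rfl⟩
  | bak => exact ⟨[.inl _], by simp, rfl⟩
  | @out _ _ c => exact ⟨[.inr c.castSucc, .inl _], by simp, rfl⟩
  | skip => exact ⟨[.inl _], by simp, rfl⟩
  | fin => exact ⟨[.inr (Fin.last k)], by simp, rfl⟩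
  | ers => exact ⟨[], by simp, rfl⟩
  | stop => exact ⟨[], by simp, rfl⟩
  | @jout c => exact ⟨[.inr c.castSucc, .inl _], by simp, rfl⟩
  | jend => exact ⟨[], by simp, rfl⟩

theorem split_G {l l' : List (Option (Fin K))} {w : List ℕ} {u₁ u₂ : List (NT K ⊕ ℕ)}
    (h : form l w l' = u₁ ++ sG :: u₂) (hu : sG ∉ u₁) :
    u₁ = [] ∧ u₂ = l.map sY ++ (w.map Sum.inr ++ sO :: l'.map sY) := by
  obtain ⟨h1, h2⟩ := first_unique (u₁ := []) h List.not_mem_nil hu
  exact ⟨h1.symm, h2.symm⟩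

theorem split_O {l l' : List (Option (Fin K))} {w : List ℕ} {u₁ u₂ : List (NT K ⊕ ℕ)}
    (h : form l w l' = u₁ ++ sO :: u₂) (hu : sO ∉ u₁) :
    u₁ = sG :: (l.map sY ++ w.map Sum.inr) ∧ u₂ = l'.map sY := by
  obtain ⟨h1, h2⟩ := first_unique (u₁ := sG :: (l.map sY ++ w.map Sum.inr)) (u₂ := l'.map sY)
    (by rw [← h]; simp [form]) (by simp [sG, sO, sY]) hu
  exact ⟨h1.symm, h2.symm⟩

theorem split_Y {l l' : List (Option (Fin K))} {w : List ℕ} {u₁ u₂ : List (NT K ⊕ ℕ)}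
    {a : Option (Fin K)} (h : form l w l' = u₁ ++ sY a :: u₂) (hu : sY a ∉ u₁) :
    (∃ l₁ l₂, l = l₁ ++ a :: l₂ ∧ u₁ = sG :: l₁.map sY ∧
      u₂ = l₂.map sY ++ (w.map Sum.inr ++ sO :: l'.map sY)) ∨
    (a ∉ l ∧ ∃ l₁ l₂, l' = l₁ ++ a :: l₂ ∧
      u₁ = sG :: (l.map sY ++ (w.map Sum.inr ++ sO :: l₁.map sY)) ∧ u₂ = l₂.map sY) := by
  by_cases ha : a ∈ l
  · obtain ⟨l₁, l₂, rfl, h1⟩ := List.eq_append_cons_of_mem ha
    obtain ⟨h2, h3⟩ := first_unique (u₁ := sG :: l₁.map sY)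
      (u₂ := l₂.map sY ++ (w.map Sum.inr ++ sO :: l'.map sY))
      (by rw [← h]; simp [form]) (by simpa [sG, sY] using h1) hu
    exact Or.inl ⟨l₁, l₂, rfl, h2.symm, h3.symm⟩
  · have ha' : a ∈ l' := by
      have : sY a ∈ form l w l' := by simp [h]
      simpa [form, sG, sY, sO, ha] using this
    obtain ⟨l₁, l₂, rfl, h1⟩ := List.eq_append_cons_of_mem ha'
    obtain ⟨h2, h3⟩ := first_unique
      (u₁ := sG :: (l.map sY ++ (w.map Sum.inr ++ sO :: l₁.map sY))) (u₂ := l₂.map sY)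
      (by rw [← h]; simp [form]) (by simp [sG, sY, sO, ha, h1]) hu
    exact Or.inr ⟨ha, l₁, l₂, rfl, h2.symm, h3.symm⟩

/-- The word is nonempty with letters below `k`. -/
def Ok (k : ℕ) (w : List ℕ) : Prop := w ≠ [] ∧ ∀ c ∈ w, c < k

theorem Ok.snoc {w : List ℕ} (h : Ok k w) (c : Fin k) : Ok k (w ++ [c.1]) :=
  ⟨by simp, fun d hd => (List.mem_append.1 hd).elim (h.2 d) fun e => by
    rw [List.mem_singleton.1 e]; exact c.2⟩

/-- The list records the registers. -/
def Cnt (l : List (Option (Fin K))) (ρ : ℕ → ℕ) : Prop := ∀ r : Fin K, l.count (some r) = ρ r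

def Tgt (k : ℕ) (P : σ × Cfg → Prop) (t : σ) (x : List ℕ) : Prop :=
  (∃ w, Ok k w ∧ x = k :: w) ∨ ∃ w ρ, P (t, (w, ρ)) ∧ x = w ++ [k]

def Inv (k : ℕ) (P : σ × Cfg → Prop) (t : σ) (u : List (NT K ⊕ ℕ)) : Option (CS σ K) → Prop
  | some (.inl q) => ∃ l l' w, u = form l w l' ∧ Ok k w ∧
      (none ∈ l ∨ l' = [none] ∧ ∃ ρ, P (q, (w, ρ)) ∧ Cnt l ρ)
  | some (.inr (.inl p)) => ∃ l l' w, u = form l w l' ∧ Ok k w ∧
      (some p.1 ∈ l ∨ l' = [some p.1] ∧ ∃ ρ, (ρ p.1 = 0 → P (p.2, (w, ρ))) ∧ Cnt l ρ)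
  | some (.inr (.inr false)) => ∃ w, Ok k w ∧ u = .inr k :: (w.map Sum.inr ++ [sO])
  | _ => Tgt k P t (u.filterMap Sum.getRight?)

theorem inv_step {lb : σ → Act k} {nx : σ → σ → Prop} {t : σ} {P : σ × Cfg → Prop}
    (hP : ∀ a b, P a → AStep lb nx a b → P b) {p q : List (NT K ⊕ ℕ) × Option (CS σ K)}
    (h : St (rules lb nx t K) p q) (hp : Inv k P t p.1 p.2) : Inv k P t q.1 q.2 := by
  obtain ⟨u', o⟩ := q
  obtain ⟨A, s, v, u₁, u₂, hr, rfl, rfl, hA⟩ := h
  cases hr with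
  | @inc q q' r h1 h2 =>
    obtain ⟨l, l', w, e, hw, h⟩ := hp
    obtain ⟨rfl, rfl⟩ := split_G e.symm hA
    refine ⟨some r :: l, l', w, rfl, hw, h.imp (List.mem_cons_of_mem _) ?_⟩
    rintro ⟨e', ρ, h3, h4⟩
    refine ⟨e', _, hP _ (q', (w, update ρ r (ρ r + 1))) h3 ⟨h2, by rw [h1]; rfl⟩, fun r' => ?_⟩
    by_cases h5 : r' = r
    · subst h5
      simp [h4 r']
    · rw [update_of_ne (fun e => h5 (Fin.ext e)), List.count_cons_of_ne (by simpa using Ne.symm h5),
        h4]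
  | @dec q q' r h1 h2 =>
    obtain ⟨l, l', w, e, hw, h⟩ := hp
    rcases split_Y e.symm hA with ⟨l₁, l₂, rfl, rfl, rfl⟩ | ⟨ha, l₁, l₂, rfl, rfl, rfl⟩
    · refine ⟨l₁ ++ l₂, l', w, by simp [form], hw, h.imp (by simp) ?_⟩
      rintro ⟨e', ρ, h3, h4⟩
      have h6 := h4 r
      simp only [List.count_append, List.count_cons_self] at h6
      refine ⟨e', _, hP _ (q', (w, update ρ r (ρ r - 1))) h3
        ⟨h2, by rw [h1]; exact ⟨by change 0 < ρ r; omega, rfl⟩⟩, fun r' => ?_⟩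
      by_cases h5 : r' = r
      · subst h5
        rw [update_self, List.count_append]
        omega
      · rw [update_of_ne (fun e => h5 (Fin.ext e)), ← h4, List.count_append, List.count_append,
          List.count_cons_of_ne (by simpa using Ne.symm h5)]
    · refine ⟨l, l₁ ++ l₂, w, by simp [form], hw, Or.inl (h.resolve_right fun h => ?_)⟩
      have : some r ∈ l₁ ++ some r :: l₂ := by simp
      simp [h.1] at this
  | @tst q q' r h1 h2 =>
    obtain ⟨l, l', w, e, hw, h⟩ := hp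
    rcases split_Y e.symm hA with ⟨l₁, l₂, rfl, rfl, rfl⟩ | ⟨ha, l₁, l₂, rfl, rfl, rfl⟩
    · exact ⟨l₁ ++ some r :: l₂, l', w, by simp [form], hw, Or.inl (by simp)⟩
    · obtain ⟨e', ρ, h3, h4⟩ := h.resolve_left ha
      obtain ⟨rfl, rfl⟩ := first_unique (v₁ := []) e' (fun h => hA (by simp [sY, h]))
        List.not_mem_nil
      exact ⟨l, [some r], w, by simp [form], hw, Or.inr ⟨rfl, ρ, fun h0 =>
        hP _ (q', (w, ρ)) h3 ⟨h2, by rw [h1]; exact ⟨h0, rfl⟩⟩, h4⟩⟩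
  | @bak q' r =>
    obtain ⟨l, l', w, e, hw, h⟩ := hp
    rcases split_Y e.symm hA with ⟨l₁, l₂, rfl, rfl, rfl⟩ | ⟨ha, l₁, l₂, rfl, rfl, rfl⟩
    · exact ⟨l₁ ++ none :: l₂, l', w, by simp [form], hw, Or.inl (by simp)⟩
    · obtain ⟨e', ρ, h3, h4⟩ := h.resolve_left ha
      obtain ⟨rfl, rfl⟩ := first_unique (v₁ := []) e' (fun h => hA (by simp [sY, h]))
        List.not_mem_nil
      exact ⟨l, [none], w, by simp [form], hw, Or.inr ⟨rfl, ρ,
        h3 ((h4 r).symm.trans (List.count_eq_zero_of_not_mem ha)), h4⟩⟩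
  | @out q q' c h1 h2 =>
    obtain ⟨l, l', w, e, hw, h⟩ := hp
    obtain ⟨rfl, rfl⟩ := split_O e.symm hA
    refine ⟨l, l', w ++ [c.1], by simp [form], hw.snoc c, h.imp id ?_⟩
    rintro ⟨e', ρ, h3, h4⟩
    exact ⟨e', ρ, hP _ (q', (w ++ [c.1], ρ)) h3 ⟨h2, by rw [h1]; rfl⟩, h4⟩
  | @skip q q' h1 h2 =>
    obtain ⟨l, l', w, e, hw, h⟩ := hp
    obtain ⟨rfl, rfl⟩ := split_G e.symm hA
    refine ⟨l, l', w, rfl, hw, h.imp id ?_⟩
    rintro ⟨e', ρ, h3, h4⟩
    exact ⟨e', ρ, hP _ (q', (w, ρ)) h3 ⟨h2, by rw [h1]; rfl⟩, h4⟩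
  | fin =>
    obtain ⟨l, l', w, e, hw, h⟩ := hp
    rcases split_Y e.symm hA with ⟨l₁, l₂, rfl, rfl, rfl⟩ | ⟨ha, l₁, l₂, rfl, rfl, rfl⟩
    · exact Or.inl ⟨w, hw, by simp [List.filterMap_append, sY, sG, sO]⟩
    · obtain ⟨e', ρ, h3, h4⟩ := h.resolve_left ha
      exact Or.inr ⟨w, ρ, h3, by simp [List.filterMap_append, sY, sG, sO]⟩
  | ers => simpa [Inv, List.filterMap_append] using hp
  | stop => simpa [Inv, List.filterMap_append] using hp
  | @jout c =>
    obtain ⟨w, hw, e⟩ := hp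
    obtain ⟨rfl, rfl⟩ := first_unique (v₁ := .inr k :: w.map Sum.inr) e hA (by simp)
    exact ⟨w ++ [c.1], hw.snoc c, by simp⟩
  | jend =>
    obtain ⟨w, hw, e⟩ := hp
    obtain ⟨rfl, rfl⟩ := first_unique (v₁ := .inr k :: w.map Sum.inr) e hA (by simp)
    exact Or.inl ⟨w, hw, by simp⟩

theorem st_mk {R : Set (NT K × CS σ K × List (NT K ⊕ ℕ) × Option (CS σ K))} {A s v o}
    (h : (A, s, v, o) ∈ R) (u w : List (NT K ⊕ ℕ)) (hA : Sum.inl A ∉ u) {x y}
    (hx : x = u ++ Sum.inl A :: w) (hy : y = u ++ v ++ w) : St R (x, some s) (y, o) :=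
  ⟨A, s, v, u, w, h, by rw [hx], hy, hA⟩

theorem sim_step {lb : σ → Act k} {nx : σ → σ → Prop} {t : σ} (hK : ∀ q, (lb q).reg < K)
    {a b : σ × Cfg} (h : AStep lb nx a b) {l : List (Option (Fin K))} (hl : none ∉ l)
    (hc : Cnt l a.2.2) : ∃ l', none ∉ l' ∧ Cnt l' b.2.2 ∧
      Relation.ReflTransGen (St (rules lb nx t K)) (form l a.2.1 [none], some (.inl a.1))
        (form l' b.2.1 [none], some (.inl b.1)) := by
  obtain ⟨q, w, ρ⟩ := a
  obtain ⟨q', y⟩ := b
  obtain ⟨h1, h2⟩ := h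
  have h3 := hK q
  dsimp only at h1 h2 hc ⊢
  generalize e : lb q = c at h2 h3
  cases c with
  | inc r =>
    obtain rfl : y = _ := h2
    refine ⟨some ⟨r, h3⟩ :: l, by simpa using hl, fun r' => ?_,
      .single (st_mk (Rl.inc (r := ⟨r, h3⟩) e h1) [] _ List.not_mem_nil rfl rfl)⟩
    by_cases h5 : r' = ⟨r, h3⟩
    · subst h5
      simp [hc ⟨r, h3⟩]
    · dsimp only
      rw [update_of_ne (fun e => h5 (Fin.ext e)),
        List.count_cons_of_ne (by simpa using Ne.symm h5), hc]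
  | dec r =>
    obtain ⟨h4, rfl⟩ := h2
    have h6 := hc ⟨r, h3⟩
    obtain ⟨l₁, l₂, rfl, h7⟩ := List.eq_append_cons_of_mem
      (List.count_pos_iff.1 (h6 ▸ h4 : 0 < l.count (some ⟨r, h3⟩)))
    refine ⟨l₁ ++ l₂, by simpa using hl, fun r' => ?_,
      .single (st_mk (Rl.dec (r := ⟨r, h3⟩) e h1) (sG :: l₁.map sY)
        (l₂.map sY ++ (w.map Sum.inr ++ sO :: [sY none])) (by simpa [sG, sY] using h7)
        (by simp [form, sY]) (by simp [form]))⟩
    dsimp only at h4 h6 ⊢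
    by_cases h5 : r' = ⟨r, h3⟩
    · subst h5
      simp only [List.count_append, List.count_cons_self] at h6
      rw [update_self, List.count_append]
      omega
    · rw [update_of_ne (fun e => h5 (Fin.ext e)), ← hc, List.count_append, List.count_append,
        List.count_cons_of_ne (by simpa using Ne.symm h5)]
  | tst r =>
    obtain ⟨h4, rfl⟩ := h2
    have h7 : some ⟨r, h3⟩ ∉ l := List.count_eq_zero.1 ((hc ⟨r, h3⟩).trans h4)
    exact ⟨l, hl, hc, .tail (.single (st_mk (Rl.tst (r := ⟨r, h3⟩) e h1)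
      (sG :: (l.map sY ++ (w.map Sum.inr ++ [sO]))) [] (by simpa [sG, sO, sY] using hl)
      (by simp [form, sY]) rfl)) (st_mk Rl.bak (sG :: (l.map sY ++ (w.map Sum.inr ++ [sO]))) []
      (by simpa [sG, sO, sY] using h7) (by simp [sY]) (by simp [form]))⟩
  | out c =>
    obtain rfl : y = _ := h2
    exact ⟨l, hl, hc, .single (st_mk (Rl.out e h1) (sG :: (l.map sY ++ w.map Sum.inr)) [sY none]
      (by simp [sG, sY]) (by simp [form, sO]) (by simp [form]))⟩
  | skip =>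
    obtain rfl : y = _ := h2
    exact ⟨l, hl, hc, .single (st_mk (Rl.skip e h1) [] _ List.not_mem_nil rfl rfl)⟩

theorem erase_all (lb : σ → Act k) (nx : σ → σ → Prop) (t : σ) (u : List (NT K ⊕ ℕ)) :
    ∀ x : List ℕ, sG ∉ u → Relation.ReflTransGen (St (rules lb nx t K))
      (sG :: (x.map Sum.inr ++ u), some (.inr (.inr true)))
      ((x ++ u.filterMap Sum.getRight?).map Sum.inr, none) := by
  induction u with
  | nil => exact fun x _ => .single (st_mk Rl.stop [] _ List.not_mem_nil rfl (by simp))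
  | cons a u ih =>
    intro x h
    have h' : sG ∉ u := fun e => h (List.mem_cons_of_mem _ e)
    rcases a with a | a
    · refine .head (st_mk (Rl.ers (a := a)) (sG :: x.map Sum.inr) u ?_ rfl rfl) ?_
      · have : Sum.inl a ≠ sG := fun e => h (e ▸ List.mem_cons_self)
        simpa using this
      · simpa using ih x h'
    · simpa using ih (x ++ [a]) h'

theorem junk (lb : σ → Act k) (nx : σ → σ → Prop) (t : σ) (v : List ℕ) (hv : ∀ c ∈ v, c < k) :
    ∀ x : List ℕ, Relation.ReflTransGen (St (rules lb nx t K))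
      (x.map Sum.inr ++ [sO], some (.inr (.inr false))) ((x ++ v).map Sum.inr, none) := by
  induction v with
  | nil => exact fun x => .single (st_mk Rl.jend (x.map Sum.inr) [] (by simp) rfl (by simp))
  | cons c v ih =>
    intro x
    refine .head (st_mk (Rl.jout (c := ⟨c, hv c List.mem_cons_self⟩)) (x.map Sum.inr) []
      (by simp) rfl rfl) ?_
    simpa using ih (fun d hd => hv d (List.mem_cons_of_mem _ hd)) (x ++ [c])

/-- A counter automaton started after one output letter is simulated in mode 1, up to an end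
letter and the junk words. -/
theorem aut_lang [Finite σ] (lb : σ → Act k) (nx : σ → σ → Prop) (s t : σ) (code : Fin k → ℕ)
    (T : Finset (List ℕ)) : ∃ G : EMG, ∀ x, x ∈ genLang G 1 ↔ x ∈ T ∨
      Tgt k (fun b => ∃ c : Fin k, Relation.ReflTransGen (AStep lb nx)
        (s, ([c.1], fun r => if r = 0 then code c else 0)) b) t x := by
  obtain ⟨B, hB⟩ := (Set.finite_range fun q => (lb q).reg).bddAbove
  have hK : ∀ q, (lb q).reg < B + 1 := fun q => Nat.lt_succ_of_le (hB ⟨q, rfl⟩)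
  have hc : ∀ c : Fin k, Cnt (List.replicate (code c) (some (0 : Fin (B + 1))))
      fun r => if r = 0 then code c else 0 := fun c r => by
    by_cases h : r = 0
    · simp [h]
    · simp [List.count_replicate, h, Ne.symm h]
  have ho : ∀ c : Fin k, Ok k [c.1] := fun c => ⟨by simp, by simp⟩
  obtain ⟨G, hG⟩ := sg_lang (rules lb nx t (B + 1)) (rules_finite lb nx t)
    (Set.range (fun c : Fin k => (form (List.replicate (code c) (some 0)) [c.1] [none], .inl s)) ∪
      Set.range fun c : Fin k => ([.inr k, .inr c.1, sO], .inr (.inr false)))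
    ((Set.finite_range _).union (Set.finite_range _))
    (by
      rintro _ (⟨c, rfl⟩ | ⟨c, rfl⟩)
      · exact ⟨_, List.mem_cons_self⟩
      · exact ⟨.inr false, by simp [sO]⟩) T
  refine ⟨G, fun x => (hG x).trans (or_congr_right ⟨?_, ?_⟩)⟩
  · rintro ⟨a, ha, h⟩
    have key : ∀ b, Relation.ReflTransGen (St (rules lb nx t (B + 1))) (a.1, some a.2) b →
        Inv k (fun b => ∃ c : Fin k, Relation.ReflTransGen (AStep lb nx)
          (s, ([c.1], fun r => if r = 0 then code c else 0)) b) t b.1 b.2 := by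
      intro b hb
      induction hb with
      | refl =>
        rcases ha with ⟨c, rfl⟩ | ⟨c, rfl⟩
        · exact ⟨_, _, _, rfl, ho c, Or.inr ⟨rfl, _, ⟨c, .refl⟩, hc c⟩⟩
        · exact ⟨[c.1], ho c, rfl⟩
      | tail _ h ih => exact inv_step (fun a b ⟨c, h1⟩ h2 => ⟨c, h1.tail h2⟩) h ih
    simpa [Inv] using key _ h
  · rintro (⟨w, ⟨h1, h2⟩, rfl⟩ | ⟨w, ρ, ⟨c, h⟩, rfl⟩)
    · obtain ⟨c, v, rfl⟩ := List.exists_cons_of_ne_nil h1
      exact ⟨_, Or.inr ⟨⟨c, h2 c List.mem_cons_self⟩, rfl⟩,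
        junk lb nx t v (fun d hd => h2 d (List.mem_cons_of_mem _ hd)) [k, c]⟩
    · refine ⟨_, Or.inl ⟨c, rfl⟩, ?_⟩
      have key : ∀ b, Relation.ReflTransGen (AStep lb nx)
          (s, ([c.1], fun r => if r = 0 then code c else 0)) b → ∃ l, none ∉ l ∧ Cnt l b.2.2 ∧
          Relation.ReflTransGen (St (rules lb nx t (B + 1)))
            (form (List.replicate (code c) (some 0)) [c.1] [none], some (.inl s))
            (form l b.2.1 [none], some (.inl b.1)) := by
        intro b hb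
        induction hb with
        | refl => exact ⟨_, by simp, hc c, .refl⟩
        | tail _ h ih =>
          obtain ⟨l, h1, h2, h3⟩ := ih
          obtain ⟨l', h4, h5, h6⟩ := sim_step (t := t) hK h h1 h2
          exact ⟨l', h4, h5, h3.trans h6⟩
      obtain ⟨l, h1, -, h3⟩ := key _ h
      refine (h3.tail (st_mk Rl.fin (sG :: (l.map sY ++ (w.map Sum.inr ++ [sO]))) []
        (by simpa [sG, sO, sY] using h1) (by simp [form, sY]) rfl)).trans ?_
      have h4 := erase_all lb nx t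
        (l.map sY ++ (w.map Sum.inr ++ [sO, .inr k])) [] (by simp [sG, sO, sY])
      have h5 : List.filterMap Sum.getRight? (l.map sY ++ (w.map Sum.inr ++ [sO, .inr k])) =
          w ++ [k] := by
        simp [List.filterMap_append, sY, sO]
      rw [h5] at h4
      simpa using h4

end Pool.Agent.P.MP_767d8d_lc
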