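import Mathlib

/-! Pumping for vector addition systems, from Higman's and Dickson's lemmas. -/

namespace Pool.Agent.P.MP_767d8d_lc

open Relation

variable {ι : Type}

def VStep (T : Set (Multiset ι × Multiset ι)) (c c' : Multiset ι) : Prop :=
  ∃ t ∈ T, ∃ r, c = t.1 + r ∧ c' = t.2 + r

theorem reach_add {T : Set (Multiset ι × Multiset ι)} {c c' : Multiset ι}
    (h : ReflTransGen (VStep T) c c') (d : Multiset ι) :
    ReflTransGen (VStep T) (c + d) (c' + d) := by
  induction h with
  | refl => exact .refl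
  | tail _ h ih =>
    obtain ⟨t, ht, r, rfl, rfl⟩ := h
    exact ih.tail ⟨t, ht, r + d, by rw [add_assoc], by rw [add_assoc]⟩

theorem reach_two {T : Set (Multiset ι × Multiset ι)} {c δ ε : Multiset ι}
    (h : ReflTransGen (VStep T) (c + δ) (c + ε)) :
    ReflTransGen (VStep T) (c + δ + δ) (c + ε + ε) := by
  have h1 := reach_add h δ
  have h2 := reach_add h ε
  rw [add_right_comm c ε δ] at h1
  exact h1.trans h2

inductive Run (T : Set (Multiset ι × Multiset ι)) :
    Multiset ι → List (Multiset ι × (Multiset ι × Multiset ι)) → Multiset ι → Prop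
  | nil (c) : Run T c [] c
  | cons {t r l e} : t ∈ T → Run T (t.2 + r) l e → Run T (t.1 + r) ((r, t) :: l) e

theorem Run.reach {T : Set (Multiset ι × Multiset ι)} {c l e} (h : Run T c l e) :
    ReflTransGen (VStep T) c e := by
  induction h with
  | nil => exact .refl
  | cons ht _ ih => exact .head ⟨_, ht, _, rfl, rfl⟩ ih

theorem Run.mem {T : Set (Multiset ι × Multiset ι)} {c l e} (h : Run T c l e) :
    ∀ x ∈ l, x.2 ∈ T := by
  induction h with
  | nil => simp
  | cons ht _ ih =>
    intro x hx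
    rcases List.mem_cons.1 hx with rfl | hx
    · exact ht
    · exact ih x hx

theorem exists_run {T : Set (Multiset ι × Multiset ι)} {c e} (h : ReflTransGen (VStep T) c e) :
    ∃ l, Run T c l e := by
  induction h using ReflTransGen.head_induction_on with
  | refl => exact ⟨[], .nil _⟩
  | head h _ ih =>
    obtain ⟨t, ht, r, rfl, rfl⟩ := h
    obtain ⟨l, hl⟩ := ih
    exact ⟨_, .cons ht hl⟩

def Rel (a b : Multiset ι × (Multiset ι × Multiset ι)) : Prop := a.1 ≤ b.1 ∧ a.2 = b.2

instance : IsPreorder (Multiset ι × (Multiset ι × Multiset ι)) Rel where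
  refl _ := ⟨le_rfl, rfl⟩
  trans _ _ _ h₁ h₂ := ⟨h₁.1.trans h₂.1, h₁.2.trans h₂.2⟩

theorem pump_aux {T : Set (Multiset ι × Multiset ι)} {l l'} (h : List.SublistForall₂ Rel l l') :
    ∀ {c e d δ ε : Multiset ι}, Run T c l e → ReflTransGen (VStep T) (c + δ) d →
      Run T d l' (e + ε) → ReflTransGen (VStep T) (c + δ + δ) (e + ε + ε) := by
  induction h with
  | nil =>
    intro c e d δ ε h1 h2 h3
    cases h1
    exact reach_two (h2.trans h3.reach)
  | @cons a b l l' hab _ ih =>
    intro c e d δ ε h1 h2 h3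
    obtain ⟨r, t⟩ := a
    obtain ⟨r', t'⟩ := b
    obtain ⟨hr, ht⟩ := hab
    simp only at hr ht
    subst ht
    obtain ⟨η, rfl⟩ := Multiset.le_iff_exists_add.1 hr
    cases h1 with
    | cons ht h1 =>
    cases h3 with
    | cons _ h3 =>
    rw [← add_assoc] at h2 h3
    refine (reach_two h2).trans (.head ⟨t, ht, r + η + η, by simp [add_assoc], rfl⟩ ?_)
    have := ih h1 .refl h3
    simpa [add_assoc] using this
  | cons_right _ ih =>
    intro c e d δ ε h1 h2 h3
    cases h3 with
    | cons ht h3 => exact ih h1 (h2.tail ⟨_, ht, _, rfl, rfl⟩) h3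

theorem multiset_pwo [Finite ι] : (Set.univ : Set (Multiset ι)).PartiallyWellOrderedOn (· ≤ ·) := by
  classical
  intro f
  obtain ⟨i, j, hij, h⟩ := wellQuasiOrdered_le (α := ι →₀ ℕ)
    (fun n => Finsupp.orderIsoMultiset.symm (f n).1)
  exact ⟨i, j, hij, Finsupp.orderIsoMultiset.symm.le_iff_le.1 h⟩

theorem pump [Finite ι] {T : Set (Multiset ι × Multiset ι)} (hT : T.Finite) (c₀ : Multiset ι)
    (f : ℕ → Multiset ι) (hf : ∀ n, ReflTransGen (VStep T) c₀ (f n)) :
    ∃ i j δ, i < j ∧ f j = f i + δ ∧ ReflTransGen (VStep T) c₀ (f i + δ + δ) := by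
  choose l hl using fun n => exists_run (hf n)
  have h1 : ((Set.univ : Set (Multiset ι)) ×ˢ T).PartiallyWellOrderedOn Rel :=
    Set.PartiallyWellOrderedOn.prod multiset_pwo (hT.partiallyWellOrderedOn (r := (· = ·)))
  have h2 := h1.partiallyWellOrderedOn_sublistForall₂ Rel
  have h3 := Set.PartiallyWellOrderedOn.prod (multiset_pwo (ι := ι)) h2
  obtain ⟨i, j, hij, h5, h4⟩ := h3.exists_lt (f := fun n => (f n, l n))
    (fun n => ⟨trivial, fun x hx => ⟨trivial, (hl n).mem x hx⟩⟩)
  obtain ⟨δ, hδ⟩ := Multiset.le_iff_exists_add.1 h5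
  refine ⟨i, j, δ, hij, hδ, ?_⟩
  have hδ' : f j = f i + δ := hδ
  have := pump_aux h4 (δ := 0) (ε := δ) (hl i) .refl (by rw [← hδ', add_zero]; exact hl j)
  simpa using this

end Pool.Agent.P.MP_767d8d_lc
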