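import Pool.Agent.P.MP_767d8d_lc.Defs
import Pool.Agent.P.MP_767d8d_lc.VAS

/-! Mode 0: the words of the language with no letter `0` after a letter `2` are simulated by a
vector addition system. Letters: `0` separator, `1` plain letter, `2` marked letter. -/

namespace Pool.Agent.P.MP_767d8d_lc

open Relation

abbrev Base (k₁ k₂ : ℕ) : Type := Option (Fin k₁ ⊕ Fin k₂ ⊕ Fin 3)

abbrev Place (k₁ k₂ : ℕ) : Type := Base k₁ k₂ × Bool × Bool

variable {k₁ k₂ : ℕ}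

def und : Place k₁ k₂ → Symb k₁ k₂
  | (none, _) => .start
  | (some (.inl A), _) => .nt₁ A
  | (some (.inr (.inl A)), _) => .nt₂ A
  | (some (.inr (.inr a)), _) => .ter a

def Ok (e : Place k₁ k₂) : Prop :=
  (und e = .ter 0 → e.2.2 = false) ∧ (und e = .ter 2 → e.2.2 = true) ∧
    ((∃ a, und e = .ter a) → e.2.1 = true → e.2.2 = true)

def Chn : Bool → List (Place k₁ k₂) → Bool → Prop
  | p, [], q => p = q
  | p, e :: l, q => p = e.2.1 ∧ Ok e ∧ Chn e.2.2 l q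

theorem chn_append {l₁ l₂ : List (Place k₁ k₂)} {p q : Bool} :
    Chn p (l₁ ++ l₂) q ↔ ∃ m, Chn p l₁ m ∧ Chn m l₂ q := by
  induction l₁ generalizing p with
  | nil => simp [Chn]
  | cons e l ih =>
    simp only [List.cons_append, Chn, ih]
    constructor
    · rintro ⟨h1, h2, m, h3, h4⟩; exact ⟨m, ⟨h1, h2, h3⟩, h4⟩
    · rintro ⟨m, ⟨h1, h2, h3⟩, h4⟩; exact ⟨h1, h2, m, h3, h4⟩

theorem chn_single {e : Place k₁ k₂} (h : ∀ a, und e ≠ .ter a) : Chn e.2.1 [e] e.2.2 :=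
  ⟨rfl, ⟨fun h' => absurd h' (h _), fun h' => absurd h' (h _), fun ⟨a, h'⟩ => absurd h' (h a)⟩,
    rfl⟩

theorem chn_single_inv {e : Place k₁ k₂} {p q} (h : Chn p [e] q) : p = e.2.1 ∧ q = e.2.2 :=
  ⟨h.1, h.2.2.symm⟩

def pl₁ (A : Fin k₁) (p q : Bool) : Place k₁ k₂ := (some (.inl A), p, q)

def pl₂ (A : Fin k₂) (p q : Bool) : Place k₁ k₂ := (some (.inr (.inl A)), p, q)

def s0 : Place k₁ k₂ := (none, false, true)

def trs (G : EMG) : Set (Multiset (Place G.k₁ G.k₂) × Multiset (Place G.k₁ G.k₂)) :=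
  {t | (∃ v ∈ G.termRules, ∃ l : List (Place G.k₁ G.k₂), l.map und = v.map Symb.ter ∧
          Chn false l true ∧ t = ({s0}, ↑l)) ∨
    (∃ r ∈ G.startRules, ∃ l : List (Place G.k₁ G.k₂), l.map und = emb₁ r.1 ++ emb₂ r.2 ∧
          Chn false l true ∧ t = ({s0}, ↑l)) ∨
    (∃ r ∈ G.matRules, ∃ (l₁ l₂ : List (Place G.k₁ G.k₂)) (p₁ q₁ p₂ q₂ : Bool),
          l₁.map und = emb₁ r.2.1 ∧ l₂.map und = emb₂ r.2.2 ∧ Chn p₁ l₁ q₁ ∧ Chn p₂ l₂ q₂ ∧
          t = (↑[(pl₁ r.1.1 p₁ q₁ : Place G.k₁ G.k₂), pl₂ r.1.2 p₂ q₂], ↑(l₁ ++ l₂)))}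

theorem finite_lift (y : List (Symb k₁ k₂)) : {l : List (Place k₁ k₂) | l.map und = y}.Finite := by
  refine (List.finite_length_eq (Place k₁ k₂) y.length).subset ?_
  intro l hl
  simp only [Set.mem_ofPred_eq] at hl ⊢
  rw [← hl, List.length_map]

theorem trs_finite (G : EMG) : (trs G).Finite := by
  have h1 : (⋃ v ∈ (G.termRules : Set (List ℕ)),
      (fun l : List (Place G.k₁ G.k₂) => (({s0}, ↑l) : Multiset (Place G.k₁ G.k₂) × Multiset (Place G.k₁ G.k₂))) ''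
        {l | l.map und = v.map Symb.ter}).Finite :=
    G.termRules.finite_toSet.biUnion fun v _ => (finite_lift _).image _
  have h2 : (⋃ r ∈ (G.startRules : Set (List (Fin G.k₁ ⊕ ℕ) × List (Fin G.k₂ ⊕ ℕ))),
      (fun l : List (Place G.k₁ G.k₂) => (({s0}, ↑l) : Multiset (Place G.k₁ G.k₂) × Multiset (Place G.k₁ G.k₂))) ''
        {l | l.map und = emb₁ r.1 ++ emb₂ r.2}).Finite :=
    G.startRules.finite_toSet.biUnion fun v _ => (finite_lift _).image _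
  have h3 : (⋃ r ∈ (G.matRules : Set ((Fin G.k₁ × Fin G.k₂) × List (Fin G.k₁ ⊕ ℕ) × List (Fin G.k₂ ⊕ ℕ))),
      (fun x : (List (Place G.k₁ G.k₂) × List (Place G.k₁ G.k₂)) × (Bool × Bool × Bool × Bool) =>
        ((↑[(pl₁ r.1.1 x.2.1 x.2.2.1 : Place G.k₁ G.k₂),
            (pl₂ r.1.2 x.2.2.2.1 x.2.2.2.2)], ↑(x.1.1 ++ x.1.2)) :
          Multiset (Place G.k₁ G.k₂) × Multiset (Place G.k₁ G.k₂))) ''
        (({l | l.map und = emb₁ r.2.1} ×ˢ {l | l.map und = emb₂ r.2.2}) ×ˢ Set.univ)).Finite :=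
    G.matRules.finite_toSet.biUnion fun v _ =>
      (((finite_lift _).prod (finite_lift _)).prod Set.finite_univ).image _
  refine ((h1.union h2).union h3).subset ?_
  rintro t (⟨v, hv, l, hl, -, rfl⟩ | ⟨r, hr, l, hl, -, rfl⟩ |
    ⟨r, hr, l₁, l₂, p₁, q₁, p₂, q₂, h₁, h₂, -, -, rfl⟩)
  · exact Or.inl (Or.inl (Set.mem_biUnion hv ⟨l, hl, rfl⟩))
  · exact Or.inl (Or.inr (Set.mem_biUnion hr ⟨l, hl, rfl⟩))
  · exact Or.inr (Set.mem_biUnion hr ⟨((l₁, l₂), (p₁, q₁, p₂, q₂)), ⟨⟨h₁, h₂⟩, trivial⟩, rfl⟩)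

theorem emb₁_append (u v : List (Fin k₁ ⊕ ℕ)) :
    (emb₁ (u ++ v) : List (Symb k₁ k₂)) = emb₁ u ++ emb₁ v := List.map_append

theorem emb₂_append (u v : List (Fin k₂ ⊕ ℕ)) :
    (emb₂ (u ++ v) : List (Symb k₁ k₂)) = emb₂ u ++ emb₂ v := List.map_append

theorem back (G : EMG) {y z : List (Symb G.k₁ G.k₂)} (h : ReflTransGen (Rewrites G 0) y z)
    (l' : List (Place G.k₁ G.k₂)) (hl' : l'.map und = z) (hc : Chn false l' true) :
    ∃ l : List (Place G.k₁ G.k₂), l.map und = y ∧ Chn false l true ∧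
      ReflTransGen (VStep (trs G)) ↑l ↑l' := by
  induction h using ReflTransGen.head_induction_on with
  | refl => exact ⟨l', hl', hc, .refl⟩
  | head h _ ih =>
    obtain ⟨l, hl, hcl, hr⟩ := ih
    rcases h with ⟨v, hv, rfl, rfl⟩ | ⟨r, hr', rfl, rfl⟩ | ⟨r, hr', u₁, w₁, u₂, w₂, rfl, rfl, -⟩
    · exact ⟨[s0], rfl, chn_single (e := s0) (fun a h => by cases h),
        .head ⟨_, Or.inl ⟨v, hv, l, hl, hcl, rfl⟩, 0, rfl, by simp⟩ hr⟩
    · exact ⟨[s0], rfl, chn_single (e := s0) (fun a h => by cases h),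
        .head ⟨_, Or.inr (Or.inl ⟨r, hr', l, hl, hcl, rfl⟩), 0, rfl, by simp⟩ hr⟩
    · simp only [emb₁_append, emb₂_append] at hl
      obtain ⟨x₁, x₂, rfl, hx₁, hx₂⟩ := List.map_eq_append_iff.1 hl
      obtain ⟨a', c, rfl, ha', hc'⟩ := List.map_eq_append_iff.1 hx₁
      obtain ⟨a, b, rfl, ha, hb⟩ := List.map_eq_append_iff.1 ha'
      obtain ⟨d', f, rfl, hd', hf⟩ := List.map_eq_append_iff.1 hx₂
      obtain ⟨d, e, rfl, hd, he⟩ := List.map_eq_append_iff.1 hd'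
      simp only [chn_append] at hcl
      obtain ⟨m₃, ⟨m₂, ⟨m₁, c₁, c₂⟩, c₃⟩, ⟨m₅, ⟨m₄, c₄, c₅⟩, c₆⟩⟩ := hcl
      refine ⟨a ++ [(pl₁ r.1.1 m₁ m₂)] ++ c ++
        (d ++ [(pl₂ r.1.2 m₄ m₅)] ++ f), ?_, ?_, .head ⟨_,
          Or.inr (Or.inr ⟨r, hr', b, e, m₁, m₂, m₄, m₅, hb, he, c₂, c₅, rfl⟩),
          ↑(a ++ c ++ d ++ f), ?_, ?_⟩ hr⟩
      · simp only [List.map_append, ha, hc', hd, hf, emb₁_append, emb₂_append]
        rfl
      · simp only [chn_append]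
        exact ⟨m₃, ⟨m₂, ⟨m₁, c₁, chn_single (e := (pl₁ r.1.1 m₁ m₂))
          (fun a h => by cases h)⟩, c₃⟩, ⟨m₅, ⟨m₄, c₄,
          chn_single (e := (pl₂ r.1.2 m₄ m₅)) (fun a h => by cases h)⟩, c₆⟩⟩
      · rw [show ∀ x y : Place G.k₁ G.k₂, [x, y] = [x] ++ [y] from fun _ _ => rfl]
        simp only [← Multiset.coe_add]
        abel
      · simp only [← Multiset.coe_add]
        abel

theorem start_not_mem (x₁ : List (Fin k₁ ⊕ ℕ)) (x₂ : List (Fin k₂ ⊕ ℕ)) :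
    (Symb.start : Symb k₁ k₂) ∉ emb₁ x₁ ++ emb₂ x₂ := by
  simp only [emb₁, emb₂, List.mem_append, List.mem_map, not_or, not_exists, not_and]
  constructor <;> rintro (x | x) _ h <;> cases h

theorem split₁ {x : List (Fin k₁ ⊕ ℕ)} {a b : List (Symb k₁ k₂)} {A : Fin k₁}
    (h : a ++ Symb.nt₁ A :: b = emb₁ x) :
    ∃ u w, x = u ++ [Sum.inl A] ++ w ∧ a = emb₁ u ∧ b = emb₁ w := by
  obtain ⟨u, x', rfl, hu, hx'⟩ := List.map_eq_append_iff.1 h.symm
  obtain ⟨z, w, rfl, hz, hw⟩ := List.map_eq_cons_iff.1 hx'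
  rcases z with z | z
  · cases hz
    exact ⟨u, w, by simp, hu.symm, hw.symm⟩
  · cases hz

theorem split₂ {x : List (Fin k₂ ⊕ ℕ)} {a b : List (Symb k₁ k₂)} {A : Fin k₂}
    (h : a ++ Symb.nt₂ A :: b = emb₂ x) :
    ∃ u w, x = u ++ [Sum.inl A] ++ w ∧ a = emb₂ u ∧ b = emb₂ w := by
  obtain ⟨u, x', rfl, hu, hx'⟩ := List.map_eq_append_iff.1 h.symm
  obtain ⟨z, w, rfl, hz, hw⟩ := List.map_eq_cons_iff.1 hx'
  rcases z with z | z
  · cases hz
    exact ⟨u, w, by simp, hu.symm, hw.symm⟩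
  · cases hz

def Inv (G : EMG) (c : Multiset (Place G.k₁ G.k₂)) : Prop :=
  c = {s0} ∨ ∃ (x₁ : List (Fin G.k₁ ⊕ ℕ)) (x₂ : List (Fin G.k₂ ⊕ ℕ))
    (l : List (Place G.k₁ G.k₂)), l.map und = emb₁ x₁ ++ emb₂ x₂ ∧ Chn false l true ∧ c = ↑l ∧
      ReflTransGen (Rewrites G 0) [Symb.start] (emb₁ x₁ ++ emb₂ x₂)

theorem inv_step (G : EMG) {c c'} (hc : Inv G c) (h : VStep (trs G) c c') : Inv G c' := by
  obtain ⟨t, ht, ρ, rfl, rfl⟩ := h
  have hstart : Inv G ({s0} + ρ) → ρ = 0 := by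
    rintro (h | ⟨x₁, x₂, l, hl, -, h, -⟩)
    · have := congrArg Multiset.card h
      simpa using this
    · exfalso
      have : (s0 : Place G.k₁ G.k₂) ∈ l := by
        rw [← Multiset.mem_coe, ← h]; simp
      exact start_not_mem x₁ x₂ (hl ▸ List.mem_map_of_mem (f := und) this)
  rcases ht with ⟨v, hv, l, hl, hcl, rfl⟩ | ⟨r, hr, l, hl, hcl, rfl⟩ |
    ⟨r, hr, l₁, l₂, p₁, q₁, p₂, q₂, h₁, h₂, c₁, c₂, rfl⟩
  · obtain rfl := hstart hc
    have e : (emb₁ (v.map Sum.inr) ++ emb₂ [] : List (Symb G.k₁ G.k₂)) = v.map Symb.ter := by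
      simp [emb₁, emb₂]
    exact Or.inr ⟨v.map Sum.inr, [], l, by rw [e, hl], hcl, by simp,
      by rw [e]; exact .single (Or.inl ⟨v, hv, rfl, rfl⟩)⟩
  · obtain rfl := hstart hc
    exact Or.inr ⟨r.1, r.2, l, hl, hcl, by simp, .single (Or.inr (Or.inl ⟨r, hr, rfl, rfl⟩))⟩
  · rcases hc with h | ⟨x₁, x₂, l, hl, hcl, h, hd⟩
    · exfalso
      have := congrArg Multiset.card h
      simp at this
      omega
    · obtain ⟨y₁, y₂, rfl, hy₁, hy₂⟩ := List.map_eq_append_iff.1 hl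
      simp only at h
      have m₁ : (pl₁ r.1.1 p₁ q₁ : Place G.k₁ G.k₂) ∈ y₁ ++ y₂ := by
        rw [← Multiset.mem_coe, ← h]; simp
      have m₂ : (pl₂ r.1.2 p₂ q₂ : Place G.k₁ G.k₂) ∈ y₁ ++ y₂ := by
        rw [← Multiset.mem_coe, ← h]; simp
      have m₁' : (pl₁ r.1.1 p₁ q₁ : Place G.k₁ G.k₂) ∈ y₁ := by
        rcases List.mem_append.1 m₁ with m | m
        · exact m
        · exfalso
          have := List.mem_map_of_mem (f := und) m
          rw [hy₂] at this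
          obtain ⟨z, -, hz⟩ := List.mem_map.1 this
          rcases z with z | z <;> cases hz
      have m₂' : (pl₂ r.1.2 p₂ q₂ : Place G.k₁ G.k₂) ∈ y₂ := by
        rcases List.mem_append.1 m₂ with m | m
        · exfalso
          have := List.mem_map_of_mem (f := und) m
          rw [hy₁] at this
          obtain ⟨z, -, hz⟩ := List.mem_map.1 this
          rcases z with z | z <;> cases hz
        · exact m
      obtain ⟨a, b, rfl⟩ := List.append_of_mem m₁'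
      obtain ⟨d, e, rfl⟩ := List.append_of_mem m₂'
      rw [List.map_append, List.map_cons] at hy₁ hy₂
      obtain ⟨u₁, w₁, rfl, ha, hb⟩ := split₁ hy₁
      obtain ⟨u₂, w₂, rfl, hd', he⟩ := split₂ hy₂
      rw [← List.singleton_append (l := b), ← List.singleton_append (l := e)] at hcl h
      simp only [chn_append] at hcl
      obtain ⟨m₃, ⟨m₁, k₁, m₂, k₂, k₃⟩, m₄, k₄, m₅, k₅, k₆⟩ := hcl
      obtain ⟨e₁, e₂⟩ : m₁ = p₁ ∧ m₂ = q₁ := chn_single_inv k₂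
      obtain ⟨e₃, e₄⟩ : m₄ = p₂ ∧ m₅ = q₂ := chn_single_inv k₅
      rw [e₁] at k₁
      rw [e₂] at k₃
      rw [e₃] at k₄
      rw [e₄] at k₆
      refine Or.inr ⟨u₁ ++ r.2.1 ++ w₁, u₂ ++ r.2.2 ++ w₂, a ++ l₁ ++ b ++ (d ++ l₂ ++ e), ?_, ?_,
        ?_, hd.tail (Or.inr (Or.inr ⟨r, hr, u₁, w₁, u₂, w₂, rfl, rfl, by simp⟩))⟩
      · simp only [List.map_append, ha, hb, hd', he, h₁, h₂, emb₁_append, emb₂_append]
      · simp only [chn_append]
        exact ⟨m₃, ⟨_, ⟨_, k₁, c₁⟩, k₃⟩, _, ⟨_, k₄, c₂⟩, k₆⟩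
      · have hρ : ρ = ↑a + ↑b + ↑d + ↑e := by
          rw [show ∀ x y : Place G.k₁ G.k₂, [x, y] = [x] ++ [y] from fun _ _ => rfl] at h
          simp only [← Multiset.coe_add] at h
          apply add_left_cancel (a := (↑[(pl₁ r.1.1 p₁ q₁ : Place G.k₁ G.k₂)] +
            ↑[(pl₂ r.1.2 p₂ q₂ : Place G.k₁ G.k₂)] : Multiset _))
          rw [h]
          abel
        simp only [hρ, ← Multiset.coe_add]
        abel

theorem inv_reach (G : EMG) {c} (h : ReflTransGen (VStep (trs G)) {s0} c) : Inv G c := by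
  induction h with
  | refl => exact Or.inl rfl
  | tail _ h ih => exact inv_step G ih h

/-- The automaton run of a terminal word. -/
def NoSepAfterMark (x : List ℕ) : Prop := ∀ u v, x = u ++ 2 :: v → 0 ∉ v

theorem chn_true {l : List (Place k₁ k₂)} {x : List ℕ} {q} (hl : l.map und = x.map Symb.ter)
    (h : Chn true l q) : 0 ∉ x := by
  induction l generalizing x with
  | nil =>
    have : x = [] := by simpa using hl.symm
    simp [this]
  | cons e l ih =>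
    obtain ⟨a, x, rfl, ha, hx⟩ := List.map_eq_cons_iff.1 hl.symm
    obtain ⟨h1, h2, h3⟩ := h
    have h4 : e.2.2 = true := h2.2.2 ⟨a, ha.symm⟩ h1.symm
    rw [h4] at h3
    intro h0
    rcases List.mem_cons.1 h0 with h0 | h0
    · subst h0
      have := h2.1 ha.symm
      rw [h4] at this
      cases this
    · exact ih hx.symm h3 h0

theorem chn_noSep {l : List (Place k₁ k₂)} {x : List ℕ} {p q} (hl : l.map und = x.map Symb.ter)
    (h : Chn p l q) : NoSepAfterMark x := by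
  rintro u v rfl
  rw [List.map_append, List.map_cons] at hl
  obtain ⟨l₁, l₂, rfl, -, h₂⟩ := List.map_eq_append_iff.1 hl
  obtain ⟨e, l₃, rfl, he, h₃⟩ := List.map_eq_cons_iff.1 h₂
  obtain ⟨m, -, -, h4, h5⟩ := chn_append.1 h
  rw [h4.2.1 he] at h5
  exact chn_true h₃ h5

open Classical in
noncomputable def cnt (a : ℕ) (c : Multiset (Place k₁ k₂)) : ℕ :=
  c.countP fun e => und e = Symb.ter a

theorem cnt_add (a : ℕ) (c d : Multiset (Place k₁ k₂)) : cnt a (c + d) = cnt a c + cnt a d := by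
  classical
  simp [cnt]

theorem cnt_eq {l : List (Place k₁ k₂)} {x : List ℕ} (hl : l.map und = x.map Symb.ter) (a : ℕ) :
    cnt a (↑l : Multiset (Place k₁ k₂)) = x.count a := by
  classical
  induction l generalizing x with
  | nil =>
    have : x = [] := by simpa using hl.symm
    simp [this, cnt]
  | cons e l ih =>
    obtain ⟨b, x, rfl, hb, hx⟩ := List.map_eq_cons_iff.1 hl.symm
    have h1 : (↑(e :: l) : Multiset (Place k₁ k₂)) = {e} + ↑l := rfl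
    rw [h1, cnt_add, ih hx.symm, List.count_cons, add_comm]
    congr 1
    have h2 : ({e} : Multiset (Place k₁ k₂)) = e ::ₘ 0 := rfl
    rw [cnt, h2, Multiset.countP_cons, Multiset.countP_zero, zero_add, ← hb]
    simp

theorem all_ter {y : List (Symb k₁ k₂)} (h : ∀ s ∈ y, ∃ a, s = Symb.ter a) :
    ∃ x : List ℕ, y = x.map Symb.ter := by
  induction y with
  | nil => exact ⟨[], rfl⟩
  | cons s y ih =>
    obtain ⟨a, rfl⟩ := h s (by simp)
    obtain ⟨x, rfl⟩ := ih fun s hs => h s (by simp [hs])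
    exact ⟨a :: x, rfl⟩

/-- Pumping lemma for mode 0. -/
theorem mode0_pump (G : EMG) (w : ℕ → List ℕ) (hw : ∀ n, w n ∈ genLang G 0)
    (hl : ∀ n, ∃ l : List (Place G.k₁ G.k₂), l.map und = (w n).map Symb.ter ∧ Chn false l true) :
    ∃ i j x, i < j ∧ x ∈ genLang G 0 ∧ NoSepAfterMark x ∧
      ∀ a, x.count a + (w i).count a = 2 * (w j).count a := by
  choose l hl hc using hl
  have hr : ∀ n, ReflTransGen (VStep (trs G)) {s0} ↑(l n) := by
    intro n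
    obtain ⟨l₀, h₀, h₁, h₂⟩ := back G (hw n) (l n) (hl n) (hc n)
    obtain ⟨e, l₁, rfl, he, h₃⟩ := List.map_eq_cons_iff.1 h₀
    obtain rfl : l₁ = [] := by simpa using h₃
    obtain ⟨e₁, e₂⟩ := chn_single_inv h₁
    obtain ⟨b, p, q⟩ := e
    simp only at e₁ e₂
    subst e₁ e₂
    rcases b with _ | b | b | b
    · exact h₂
    all_goals cases he
  obtain ⟨i, j, δ, hij, hδ, h⟩ := pump (trs_finite G) _ (fun n => (↑(l n) : Multiset _)) hr
  have hter : ∀ e ∈ (↑(l i) : Multiset (Place G.k₁ G.k₂)) + δ + δ, ∃ a, und e = Symb.ter a := by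
    intro e he
    have he' : e ∈ (↑(l j) : Multiset (Place G.k₁ G.k₂)) := by
      rw [hδ]
      simp only [Multiset.mem_add] at he ⊢
      tauto
    have := List.mem_map_of_mem (f := und) (Multiset.mem_coe.1 he')
    rw [hl j] at this
    obtain ⟨a, -, ha⟩ := List.mem_map.1 this
    exact ⟨a, ha.symm⟩
  rcases inv_reach G h with h' | ⟨x₁, x₂, l', h₁, h₂, h₃, h₄⟩
  · obtain ⟨a, ha⟩ := hter s0 (by rw [h']; simp)
    cases ha
  · obtain ⟨x, hx⟩ := all_ter (y := emb₁ x₁ ++ emb₂ x₂) (by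
      intro s hs
      rw [← h₁] at hs
      obtain ⟨e, he, rfl⟩ := List.mem_map.1 hs
      exact hter e (by rw [h₃]; exact he))
    rw [hx] at h₁ h₄
    refine ⟨i, j, x, hij, h₄, chn_noSep h₁ h₂, fun a => ?_⟩
    rw [← cnt_eq h₁, ← cnt_eq (hl i), ← cnt_eq (hl j), ← h₃, hδ]
    simp only [cnt_add]
    omega

end Pool.Agent.P.MP_767d8d_lc
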