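import Pool.Agent.P.MP_767d8d_lc.Mode0

/-! Mode 1: a grammar whose words are blocks of non-increasing lengths. -/

namespace Pool.Agent.P.MP_767d8d_lc

open Relation

abbrev MRule : Type := (Fin 3 × Fin 2) × List (Fin 3 ⊕ ℕ) × List (Fin 2 ⊕ ℕ)

def rules : List MRule :=
  [((2, 0), [.inr 0, .inl 0, .inl 2], [.inl 0]),
   ((0, 0), [.inr 1, .inl 1], [.inl 0]), ((0, 0), [.inr 2, .inl 1], [.inl 0]),
   ((1, 0), [.inr 1, .inl 0], [.inl 0]), ((1, 0), [.inr 2, .inl 0], [.inl 0]),
   ((2, 0), [.inl 2], [.inl 1]),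
   ((0, 1), [], [.inl 1]), ((1, 1), [], [.inl 1]), ((2, 1), [], [])]

abbrev G₁ : EMG where
  k₁ := 3
  k₂ := 2
  termRules := ∅
  startRules := {([.inl 2], [.inl 0])}
  matRules := rules.toFinset
  wf := by simp

def par (n : ℕ) : Fin 3 := if n % 2 = 0 then 0 else 1

theorem par_ne_two (n : ℕ) : par n ≠ 2 := by
  unfold par; split_ifs <;> decide

theorem par_succ_ne (n : ℕ) : par (n + 1) ≠ par n := by
  unfold par; split_ifs <;> first | decide | omega

theorem par_succ {n : ℕ} {X X' : Fin 3} (h : par n = X) (h₁ : X' ≠ X) (h₂ : X' ≠ 2) :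
    par (n + 1) = X' := by
  have h3 := par_succ_ne n
  have h4 := par_ne_two n
  have h5 := par_ne_two (n + 1)
  omega

inductive Good : ℕ → List (Symb 3 2) → Prop
  | fin (m : ℕ) : Good m [.nt₁ 2, .nt₂ 0]
  | blk (m : ℕ) (w : List ℕ) (y : List (Symb 3 2)) : (∀ x ∈ w, x = 1 ∨ x = 2) → w.length ≤ m →
      Good w.length y → Good m ((.ter 0 :: w.map .ter) ++ .nt₁ (par w.length) :: y)

theorem Good.mono {m m' y} (h : Good m y) (hm : m ≤ m') : Good m' y := by
  cases h with
  | fin => exact .fin _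
  | blk _ w y h1 h2 h3 => exact .blk _ w y h1 (h2.trans hm) h3

theorem split_after {α : Type} {a b u v : List α} {c : α} (h : a ++ b = u ++ c :: v)
    (hc : c ∉ a) : ∃ u', u = a ++ u' ∧ b = u' ++ c :: v := by
  rcases List.append_eq_append_iff.1 h with ⟨a', h1, h2⟩ | ⟨c', h1, h2⟩
  · exact ⟨a', h1, h2⟩
  · rcases c' with _ | ⟨d, c'⟩
    · exact ⟨[], by simpa using h1.symm, by simpa using h2.symm⟩
    · exfalso
      obtain ⟨rfl, -⟩ := List.cons_eq_cons.1 h2
      exact hc (by simp [h1])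

theorem Good.grow {m y} (h : Good m y) {U V : List (Symb 3 2)} {X X' : Fin 3} {x : ℕ}
    (hy : y = U ++ .nt₁ X :: V) (hU : Symb.nt₁ X ∉ U) (hX : X ≠ 2) (hX' : X' ≠ 2) (hne : X' ≠ X)
    (hx : x = 1 ∨ x = 2) (hm : par m ≠ X) : Good m (U ++ .ter x :: .nt₁ X' :: V) := by
  induction h generalizing U with
  | fin =>
    exfalso
    have : (Symb.nt₁ X : Symb 3 2) ∈ [Symb.nt₁ 2, Symb.nt₂ 0] := by rw [hy]; simp
    simp [hX] at this
  | blk m w y h1 h2 h3 ih =>
    obtain ⟨u', rfl, h4⟩ := split_after hy (by simp)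
    rcases u' with _ | ⟨d, u'⟩
    · obtain ⟨h5, rfl⟩ := List.cons_eq_cons.1 h4
      have h6 : par w.length = X := by simpa using h5
      have h7 : w.length ≠ m := fun h => hm (h ▸ h6)
      have := Good.blk m (w ++ [x]) y
        (by intro z hz; rcases List.mem_append.1 hz with hz | hz
            · exact h1 z hz
            · simpa [List.mem_singleton.1 hz] using hx)
        (by simp; omega) (h3.mono (by simp))
      rw [List.length_append, List.length_singleton, par_succ h6 hne hX'] at this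
      simpa using this
    · obtain ⟨rfl, h5⟩ := List.cons_eq_cons.1 h4
      have := Good.blk m w _ h1 h2 (ih h5 (fun h => hU (by simp [h]))
        (fun h => hU (by simp [h])))
      simpa using this

theorem Good.new {m y} (h : Good m y) {U V : List (Symb 3 2)}
    (hy : y = U ++ .nt₁ 2 :: V) : Good m (U ++ .ter 0 :: .nt₁ 0 :: .nt₁ 2 :: V) := by
  induction h generalizing U with
  | fin m =>
    rcases U with _ | ⟨d, U⟩
    · obtain ⟨-, rfl⟩ := List.cons_eq_cons.1 hy
      exact Good.blk m [] _ (by simp) (by simp) (.fin _)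
    · exfalso
      obtain ⟨-, h⟩ := List.cons_eq_cons.1 hy
      have : (Symb.nt₁ 2 : Symb 3 2) ∈ [Symb.nt₂ 0] := by rw [h]; simp
      simp at this
  | blk m w y h1 h2 h3 ih =>
    obtain ⟨u', rfl, h4⟩ := split_after hy (by simp)
    rcases u' with _ | ⟨d, u'⟩
    · obtain ⟨h5, rfl⟩ := List.cons_eq_cons.1 h4
      exact absurd (by simpa using h5) (par_ne_two _)
    · obtain ⟨rfl, h5⟩ := List.cons_eq_cons.1 h4
      simpa using Good.blk m w _ h1 h2 (ih h5)

theorem Good.second {m y} (h : Good m y) {U V : List (Symb 3 2)} {B : Fin 2}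
    (hy : y = U ++ .nt₂ B :: V) : B = 0 ∧ Symb.nt₂ 0 ∉ U ∧ V = [] := by
  induction h generalizing U with
  | fin m =>
    obtain ⟨u', rfl, h4⟩ := split_after (a := [Symb.nt₁ 2]) (b := [Symb.nt₂ 0]) hy (by simp)
    rcases u' with _ | ⟨d, u'⟩
    · obtain ⟨h5, rfl⟩ := List.cons_eq_cons.1 h4
      exact ⟨by simpa using h5.symm, by simp, rfl⟩
    · simp at h4
  | blk m w y h1 h2 h3 ih =>
    obtain ⟨u', rfl, h4⟩ := split_after hy (by simp)
    rcases u' with _ | ⟨d, u'⟩
    · simp at h4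
    · obtain ⟨rfl, h5⟩ := List.cons_eq_cons.1 h4
      obtain ⟨h6, h7, h8⟩ := ih h5
      exact ⟨h6, by simpa using h7, h8⟩

/-- Terminal projection. -/
def tp : List (Symb 3 2) → List ℕ
  | [] => []
  | .ter a :: y => a :: tp y
  | _ :: y => tp y

theorem tp_append (y z : List (Symb 3 2)) : tp (y ++ z) = tp y ++ tp z := by
  induction y with
  | nil => rfl
  | cons s y ih => cases s <;> simp [tp, ih]

theorem tp_map (w : List ℕ) : tp (w.map .ter) = w := by
  induction w with
  | nil => rfl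
  | cons s y ih => simp [tp, ih]

theorem Good.ineq {m y} (h : Good m y) (hn : NoSepAfterMark (tp y)) :
    (tp y = [] ∨ 0 ∈ tp y) ∧ (tp y).count 2 ≤ m ∧
      (tp y).count 0 * (tp y).count 2 ≤ (tp y).count 1 + (tp y).count 2 := by
  induction h with
  | fin m => simp [tp]
  | blk m w y h1 h2 h3 ih =>
    have e : tp ((Symb.ter 0 :: w.map .ter) ++ .nt₁ (par w.length) :: y) = 0 :: (w ++ tp y) := by
      rw [tp_append]
      simp [tp, tp_map]
    rw [e] at hn ⊢
    obtain ⟨i1, i2, i3⟩ := ih fun u v huv => hn (0 :: (w ++ u)) v (by simp [huv])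
    have h0 : w.count 0 = 0 := List.count_eq_zero.2 fun h => by have := h1 0 h; omega
    refine ⟨Or.inr (by simp), ?_⟩
    rcases i1 with i1 | i1
    · have := List.count_le_length (a := 2) (l := w)
      simp [i1, h0]
      omega
    · have h2' : 2 ∉ w := by
        intro h
        obtain ⟨a, b, rfl⟩ := List.append_of_mem h
        exact hn (0 :: a) (b ++ tp y) (by simp) (by simp [i1])
      have h3' : w.count 2 = 0 := List.count_eq_zero.2 h2'
      have h4' : w.count 1 = w.length := List.count_eq_length.2 fun b hb => by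
        rcases h1 b hb with rfl | rfl
        · rfl
        · exact absurd hb h2'
      simp [h0, h3', h4']
      constructor
      · omega
      · rw [add_mul]
        omega

def Q (x : List ℕ) : Prop := NoSepAfterMark x → x.count 0 * x.count 2 ≤ x.count 1 + x.count 2

def Inv₁ (s : List (Symb 3 2)) : Prop :=
  s = [.start] ∨ (∃ m, Good m s) ∨ (Symb.start ∉ s ∧ Symb.nt₂ 0 ∉ s ∧ Q (tp s))

theorem inv₁_step {s s'} (hs : Inv₁ s) (h : Rewrites G₁ 1 s s') : Inv₁ s' := by
  rcases h with ⟨v, hv, -⟩ | ⟨r, hr, rfl, rfl⟩ | ⟨r, hr, u₁, w₁, u₂, w₂, rfl, rfl, h⟩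
  · simp at hv
  · obtain rfl := Finset.mem_singleton.1 hr
    exact Or.inr (Or.inl ⟨0, .fin 0⟩)
  · obtain ⟨hu, -⟩ := h rfl
    have hU : Symb.nt₁ r.1.1 ∉ (emb₁ u₁ : List (Symb 3 2)) := by
      intro h
      obtain ⟨z, hz, hz'⟩ := List.mem_map.1 h
      rcases z with z | z <;> cases hz'
      exact hu hz
    have hst := start_not_mem (k₁ := 3) (k₂ := 2) (u₁ ++ r.2.1 ++ w₁) (u₂ ++ r.2.2 ++ w₂)
    rcases hs with hs | ⟨m, hs⟩ | ⟨-, h1, h2⟩
    · exact absurd (by rw [hs]; simp) (start_not_mem _ _)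
    · have hB := hs.second (U := emb₁ (u₁ ++ [Sum.inl r.1.1] ++ w₁) ++ emb₂ u₂) (V := emb₂ w₂)
        (B := r.1.2) (by simp [emb₂])
      have grow : ∀ (X' : Fin 3) (x : ℕ), r.1.1 ≠ 2 → X' ≠ 2 → X' ≠ r.1.1 → (x = 1 ∨ x = 2) →
          ∃ m, Good m (emb₁ (u₁ ++ [.inr x, .inl X'] ++ w₁) ++ emb₂ (u₂ ++ [.inl r.1.2] ++ w₂)) := by
        intro X' x hX hX' hne hx
        obtain ⟨m', hm', hp⟩ : ∃ m', m ≤ m' ∧ par m' ≠ r.1.1 := by
          by_cases hp : par m = r.1.1
          · exact ⟨m + 1, by omega, hp ▸ par_succ_ne m⟩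
          · exact ⟨m, le_rfl, hp⟩
        have := (hs.mono hm').grow (U := emb₁ u₁)
          (V := emb₁ w₁ ++ emb₂ (u₂ ++ [.inl r.1.2] ++ w₂)) (by simp [emb₁]) hU hX hX' hne hx hp
        exact ⟨m', by simpa [emb₁] using this⟩
      simp only [rules, List.mem_toFinset, List.mem_cons, List.not_mem_nil, or_false] at hr
      rcases hr with rfl | rfl | rfl | rfl | rfl | rfl | rfl | rfl | rfl
      · have := hs.new (U := emb₁ u₁) (V := emb₁ w₁ ++ emb₂ (u₂ ++ [.inl 0] ++ w₂))
          (by simp [emb₁])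
        exact Or.inr (Or.inl ⟨m, by simpa [emb₁] using this⟩)
      · exact Or.inr (Or.inl (grow 1 1 (by decide) (by decide) (by decide) (by decide)))
      · exact Or.inr (Or.inl (grow 1 2 (by decide) (by decide) (by decide) (by decide)))
      · exact Or.inr (Or.inl (grow 0 1 (by decide) (by decide) (by decide) (by decide)))
      · exact Or.inr (Or.inl (grow 0 2 (by decide) (by decide) (by decide) (by decide)))
      · refine Or.inr (Or.inr ⟨hst, ?_, ?_⟩)
        · obtain ⟨-, h1, h2⟩ := hB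
          simp only [emb₂_append, h2]
          simpa [emb₂] using h1
        · have e : tp (emb₁ (u₁ ++ [.inl 2] ++ w₁) ++ emb₂ (u₂ ++ [.inl 1] ++ w₂)) =
              tp (emb₁ (u₁ ++ [.inl 2] ++ w₁) ++ emb₂ (u₂ ++ [.inl 0] ++ w₂)) := by
            simp only [emb₂_append, tp_append]
            rfl
          simp only [e]
          exact fun hn => (hs.ineq hn).2.2
      all_goals exact absurd hB.1 (by decide)
    · simp only [rules, List.mem_toFinset, List.mem_cons, List.not_mem_nil, or_false] at hr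
      rcases hr with rfl | rfl | rfl | rfl | rfl | rfl | rfl | rfl | rfl
      iterate 6 exact absurd (by simp [emb₂]) h1
      all_goals
        refine Or.inr (Or.inr ⟨hst, ?_, ?_⟩)
        · simpa [emb₁, emb₂] using h1
        · simp only [emb₁_append, emb₂_append, tp_append] at h2 ⊢
          simpa [emb₁, emb₂, tp] using h2

theorem lang_ineq {x : List ℕ} (hx : x ∈ genLang G₁ 1) : Q x := by
  have key : ∀ s, ReflTransGen (Rewrites G₁ 1) [Symb.start] s → Inv₁ s := by
    intro s h
    induction h with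
    | refl => exact Or.inl rfl
    | tail _ h ih => exact inv₁_step ih h
  rcases key _ hx with h | ⟨m, h⟩ | ⟨-, -, h⟩
  · have : (Symb.start : Symb 3 2) ∈ x.map Symb.ter := by rw [h]; simp
    simp at this
  · rw [← tp_map x]
    exact fun hn => (h.ineq hn).2.2
  · rwa [tp_map] at h

/-! The witness words. -/

theorem step₁ {A : Fin 3} {B : Fin 2} {v₁ v₂} (h : ((A, B), v₁, v₂) ∈ rules)
    (u w : List (Fin 3 ⊕ ℕ)) (hu : Sum.inl A ∉ u) :
    Rewrites G₁ 1 (emb₁ (u ++ [.inl A] ++ w) ++ emb₂ [.inl B]) (emb₁ (u ++ v₁ ++ w) ++ emb₂ v₂) :=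
  Or.inr (Or.inr ⟨_, List.mem_toFinset.2 h, u, w, [], [], rfl, by simp, fun _ => ⟨hu, by simp⟩⟩)

def enc (X : Fin 3) (c : ℕ) (ls : List ℕ) : List (Fin 3 ⊕ ℕ) :=
  ls.flatMap fun x => .inr 0 :: (List.replicate c (.inr x) ++ [.inl X])

def word (c : ℕ) (ls : List ℕ) : List ℕ := ls.flatMap fun x => 0 :: List.replicate c x

theorem create (ls : List ℕ) (u : List (Fin 3 ⊕ ℕ)) (hu : Sum.inl 2 ∉ u) :
    ReflTransGen (Rewrites G₁ 1) (emb₁ (u ++ [.inl 2]) ++ emb₂ [.inl 0])
      (emb₁ (u ++ enc 0 0 ls ++ [.inl 2]) ++ emb₂ [.inl 0]) := by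
  induction ls generalizing u with
  | nil => simp [enc]; exact .refl
  | cons x ls ih =>
    have h1 := step₁ (A := 2) (B := 0) (v₁ := [.inr 0, .inl 0, .inl 2]) (v₂ := [.inl 0])
      (by simp [rules]) u [] hu
    have h2 := ih (u ++ [.inr 0, .inl 0]) (by simp [hu])
    simp only [enc, List.flatMap_cons, List.append_assoc, List.replicate_zero, List.nil_append,
      List.cons_append, List.append_nil] at h1 h2 ⊢
    exact .head h1 h2

theorem round {X X' : Fin 3} (hne : X ≠ X') (c : ℕ) (ls : List ℕ)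
    (hr : ∀ x ∈ ls, (((X, 0), [.inr x, .inl X'], [.inl 0]) : MRule) ∈ rules)
    (u w : List (Fin 3 ⊕ ℕ)) (hu : Sum.inl X ∉ u) :
    ReflTransGen (Rewrites G₁ 1) (emb₁ (u ++ enc X c ls ++ w) ++ emb₂ [.inl 0])
      (emb₁ (u ++ enc X' (c + 1) ls ++ w) ++ emb₂ [.inl 0]) := by
  induction ls generalizing u with
  | nil => simp [enc]; exact .refl
  | cons x ls ih =>
    have h1 := step₁ (hr x (by simp)) (u ++ .inr 0 :: List.replicate c (.inr x))
      (enc X c ls ++ w) (by simp [hu, List.mem_replicate])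
    have h2 := ih (fun y hy => hr y (by simp [hy]))
      (u ++ .inr 0 :: (List.replicate c (.inr x) ++ [.inr x, .inl X']))
      (by simp [hu, List.mem_replicate, hne])
    simp only [enc, List.flatMap_cons, List.append_assoc, List.replicate_succ', List.nil_append,
      List.cons_append] at h1 h2 ⊢
    exact .head h1 h2

theorem rounds (c : ℕ) (ls : List ℕ) (hl : ∀ x ∈ ls, x = 1 ∨ x = 2) (w : List (Fin 3 ⊕ ℕ)) :
    ReflTransGen (Rewrites G₁ 1) (emb₁ (enc 0 0 ls ++ w) ++ emb₂ [.inl 0])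
      (emb₁ (enc (par c) c ls ++ w) ++ emb₂ [.inl 0]) := by
  induction c with
  | zero => exact .refl
  | succ c ih =>
    refine ih.trans (round (par_succ_ne c).symm c ls (fun x hx => ?_) [] w (by simp))
    unfold par
    rcases hl x hx with rfl | rfl <;> split_ifs <;> first | omega | simp [rules]

theorem erase {X : Fin 3} (hr : (((X, 1), [], [.inl 1]) : MRule) ∈ rules) (c : ℕ) (ls : List ℕ)
    (u w : List (Fin 3 ⊕ ℕ)) (hu : Sum.inl X ∉ u) :
    ReflTransGen (Rewrites G₁ 1) (emb₁ (u ++ enc X c ls ++ w) ++ emb₂ [.inl 1])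
      (emb₁ (u ++ (word c ls).map .inr ++ w) ++ emb₂ [.inl 1]) := by
  induction ls generalizing u with
  | nil => simp [enc, word]; exact .refl
  | cons x ls ih =>
    have h1 := step₁ hr (u ++ .inr 0 :: List.replicate c (.inr x))
      (enc X c ls ++ w) (by simp [hu, List.mem_replicate])
    have h2 := ih (u ++ .inr 0 :: List.replicate c (.inr x)) (by simp [hu, List.mem_replicate])
    simp only [enc, word, List.flatMap_cons, List.append_assoc, List.nil_append, List.map_append,
      List.map_cons, List.map_replicate, List.cons_append] at h1 h2 ⊢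
    exact .head h1 h2

theorem word_mem (c : ℕ) (ls : List ℕ) (hl : ∀ x ∈ ls, x = 1 ∨ x = 2) :
    word c ls ∈ genLang G₁ 1 := by
  have h0 : Rewrites G₁ 1 [Symb.start] (emb₁ ([] ++ [.inl 2]) ++ emb₂ [.inl 0]) :=
    Or.inr (Or.inl ⟨_, Finset.mem_singleton_self _, rfl, rfl⟩)
  have h1 := create ls [] (by simp)
  have h2 := rounds c ls hl [.inl 2]
  have h3 := step₁ (A := 2) (B := 0) (v₁ := [.inl 2]) (v₂ := [.inl 1]) (by simp [rules])
    (enc (par c) c ls) [] (by simp [enc, List.mem_replicate, (par_ne_two c).symm])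
  have h4 := erase (X := par c) (by unfold par; split_ifs <;> simp [rules]) c ls [] [.inl 2]
    (by simp)
  have h5 := step₁ (A := 2) (B := 1) (v₁ := []) (v₂ := []) (by simp [rules])
    ((word c ls).map .inr) [] (by simp)
  simp only [List.nil_append, List.append_nil] at h0 h1 h2 h3 h4 h5
  have h6 := ((((ReflTransGen.single h0).trans h1).trans h2).tail h3).trans h4 |>.tail h5
  have e : (emb₁ ((word c ls).map .inr) ++ emb₂ [] : List (Symb 3 2)) =
      (word c ls).map Symb.ter := by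
    simp [emb₁, emb₂]
  rw [e] at h6
  exact h6

theorem annot_false {k₁ k₂ : ℕ} (u : List ℕ) (hu : ∀ a ∈ u, a = 0 ∨ a = 1) :
    ∃ l : List (Place k₁ k₂), l.map und = u.map Symb.ter ∧ Chn false l false := by
  induction u with
  | nil => exact ⟨[], rfl, rfl⟩
  | cons a u ih =>
    obtain ⟨l, h1, h2⟩ := ih fun b hb => hu b (by simp [hb])
    rcases hu a (by simp) with rfl | rfl
    · exact ⟨(some (.inr (.inr 0)), false, false) :: l, by simp [h1, und], rfl,
        by simp [Ok, und], h2⟩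
    · exact ⟨(some (.inr (.inr 1)), false, false) :: l, by simp [h1, und], rfl,
        by simp [Ok, und], h2⟩

theorem annot_true {k₁ k₂ : ℕ} (c : ℕ) (p : Bool) :
    ∃ l : List (Place k₁ k₂), l.map und = (List.replicate (c + 1) 2).map Symb.ter ∧
      Chn p l true := by
  induction c generalizing p with
  | zero => exact ⟨[(some (.inr (.inr 2)), p, true)], by simp [und], rfl, by simp [Ok, und], rfl⟩
  | succ c ih =>
    obtain ⟨l, h1, h2⟩ := ih true
    exact ⟨(some (.inr (.inr 2)), p, true) :: l, by simp [h1, und, List.replicate_succ], rfl,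
      by simp [Ok, und], h2⟩

def W (n : ℕ) : List ℕ := word (n + 1) (List.replicate (n + 1) 1 ++ [2])

theorem W_eq (n : ℕ) :
    W n = (word (n + 1) (List.replicate (n + 1) 1) ++ [0]) ++ List.replicate (n + 1) 2 := by
  simp [W, word]

theorem word_count (c k : ℕ) : (word c (List.replicate k 1)).count 0 = k ∧
    (word c (List.replicate k 1)).count 1 = k * c ∧ (word c (List.replicate k 1)).count 2 = 0 := by
  induction k with
  | zero => simp [word]
  | succ k ih =>
    have e : word c (List.replicate (k + 1) 1) =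
        0 :: (List.replicate c 1 ++ word c (List.replicate k 1)) := by
      simp [word, List.replicate_succ]
    obtain ⟨h1, h2, h3⟩ := ih
    simp [e, h1, h2, h3, List.count_replicate]
    ring

theorem separation (G : EMG) : genLang G 0 ≠ genLang G₁ 1 := by
  intro h
  obtain ⟨i, j, x, hij, hx, hn, hc⟩ := mode0_pump G W
    (fun n => h ▸ word_mem _ _ (by simp +contextual [List.mem_replicate]))
    (fun n => by
      obtain ⟨l₁, h1, h2⟩ := annot_false (k₁ := G.k₁) (k₂ := G.k₂)
        (word (n + 1) (List.replicate (n + 1) 1) ++ [0])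
        (by simp +contextual [word, List.mem_replicate, or_imp])
      obtain ⟨l₂, h3, h4⟩ := annot_true (k₁ := G.k₁) (k₂ := G.k₂) n false
      exact ⟨l₁ ++ l₂, by rw [W_eq, List.map_append, h1, h3, ← List.map_append],
        chn_append.2 ⟨_, h2, h4⟩⟩)
  have hq := lang_ineq (h ▸ hx) hn
  have cW : ∀ n, (W n).count 0 = n + 2 ∧ (W n).count 1 = (n + 1) * (n + 1) ∧
      (W n).count 2 = n + 1 := by
    intro n
    obtain ⟨h1, h2, h3⟩ := word_count (n + 1) (n + 1)
    simp [W_eq, h1, h2, h3, List.count_replicate]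
  have c0 := hc 0
  have c1 := hc 1
  have c2 := hc 2
  rw [(cW i).1, (cW j).1] at c0
  rw [(cW i).2.1, (cW j).2.1] at c1
  rw [(cW i).2.2, (cW j).2.2] at c2
  obtain ⟨d, rfl⟩ : ∃ d, j = i + d + 1 := ⟨j - i - 1, by omega⟩
  have e0 : x.count 0 = i + 2 * d + 4 := by omega
  have e2 : x.count 2 = i + 2 * d + 3 := by omega
  rw [e0, e2] at hq
  nlinarith

end Pool.Agent.P.MP_767d8d_lc
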