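import Pool.Agent.P.MP_767d8d_lc.CM

open Function Encodable

namespace Pool.Agent.P.MP_767d8d_lc

variable {k : ℕ}

/-- One round outputs a letter and updates the code of the output word in register `0`. -/
theorem exists_body (k : ℕ) : ∃ B : Prog k,
    (∀ x y, B.den x y → x.2 0 = encode x.1 → y.2 0 = encode y.1) ∧
    ∀ x (c : Fin k), ∃ ρ, B.den x (x.1 ++ [c.1], ρ) := by
  have key : ∀ s : Finset (Fin k), ∃ B : Prog k,
      (∀ x y, B.den x y → x.2 0 = encode x.1 → y.2 0 = encode y.1) ∧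
      ∀ x, ∀ c ∈ s, ∃ ρ, B.den x (x.1 ++ [c.1], ρ) := by
    intro s
    induction s using Finset.induction_on with
    | empty =>
      refine ⟨.act .skip, ?_, by simp⟩
      rintro x _ rfl h
      exact h
    | insert c s _ ih =>
      obtain ⟨B, h1, h2⟩ := ih
      have hg : Primrec fun n : ℕ => encode ((decode (α := List ℕ) n).getD [] ++ [c.1]) :=
        Primrec.encode.comp (Primrec.list_append.comp
          (Primrec.option_getD.comp Primrec.decode (.const [])) (.const [c.1]))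
      obtain ⟨p, φ, hp, h3⟩ := cmp_prim (k := k) (Nat.Primrec'.prim_iff₁.2 hg) (fun _ => 0) 0 1
        (fun _ => Nat.one_pos) Nat.one_pos
      refine ⟨.alt (.seq (.act (.out c)) p) B, ?_, fun x d hd => ?_⟩
      · rintro x y (⟨_, rfl, h⟩ | h) h0
        · obtain rfl := (hp _ _).1 h
          exact (h3 _).1.trans (by simp [h0])
        · exact h1 _ _ h h0
      · rcases Finset.mem_insert.1 hd with rfl | hd
        · exact ⟨_, Or.inl ⟨_, rfl, (hp _ _).2 rfl⟩⟩
        · exact (h2 x d hd).imp fun _ => Or.inr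
  obtain ⟨B, h1, h2⟩ := key Finset.univ
  exact ⟨B, h1, fun x c => h2 x c (Finset.mem_univ c)⟩

/-- A final test that can succeed exactly when the word coded in register `0` lies in `K`. -/
theorem exists_test (k : ℕ) {K : Set (List ℕ)} (hK : REPred (· ∈ K)) : ∃ Q : Prog k,
    ∀ w ρ, ρ 0 = encode w → (∀ y, Q.den (w, ρ) y → y.1 = w ∧ w ∈ K) ∧
      (w ∈ K → ∃ ρ', Q.den (w, ρ) (w, ρ')) := by
  obtain ⟨cd, hcd⟩ := Nat.Partrec.Code.exists_code.1 hK
  have hw : ∀ w, w ∈ K ↔ ∃ n x, x ∈ Nat.Partrec.Code.evaln n cd (encode w) := fun w => by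
    rw [exists_comm]
    simp only [← Nat.Partrec.Code.evaln_complete, hcd]
    simp [Part.mem_assert_iff]
  have hf : Primrec₂ fun a n : ℕ => cond (Nat.Partrec.Code.evaln n cd a).isSome 0 1 :=
    Primrec.cond (Primrec.option_isSome.comp (Nat.Partrec.Code.primrec_evaln.comp
      ((Primrec.snd.pair (.const cd)).pair Primrec.fst))) (.const 0) (.const 1)
  obtain ⟨p, φ, hp, h3⟩ := cmp_prim (k := k) (Nat.Primrec'.prim_iff₂.2 hf) (fun i => i) 2 3
    (fun i => by omega) (by omega)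
  have h4 : ∀ ρ, φ ρ 2 = cond (Nat.Partrec.Code.evaln (ρ 1) cd (ρ 0)).isSome 0 1 := fun ρ =>
    (h3 ρ).1
  refine ⟨.seq (.star (.act (.inc 1))) (.seq p (.act (.tst 2))), fun w ρ h0 => ⟨?_, fun h => ?_⟩⟩
  · rintro y ⟨u, h1, v, h2, h5, rfl⟩
    obtain rfl := (hp _ _).1 h2
    have h6 : u.1 = w ∧ u.2 0 = encode w := by
      clear h2 h5
      induction h1 with
      | refl => exact ⟨rfl, h0⟩
      | tail _ h ih =>
        obtain rfl := (fn_inc 1 _ _).1 h
        exact ⟨ih.1, by simpa using ih.2⟩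
    refine ⟨h6.1, (hw w).2 ⟨u.2 1, ?_⟩⟩
    have h7 := (h4 _).symm.trans h5
    rw [h6.2] at h7
    cases e : Nat.Partrec.Code.evaln (u.2 1) cd (encode w) with
    | none => simp [e] at h7
    | some x => exact ⟨x, rfl⟩
  · obtain ⟨n, x, hx⟩ := (hw w).1 h
    have h5 : ∀ m, Relation.ReflTransGen (Prog.act (k := k) (.inc 1)).den (w, ρ)
        (w, update ρ 1 (ρ 1 + m)) := fun m => by
      induction m with
      | zero => simpa using Relation.ReflTransGen.refl
      | succ m ih => exact ih.tail ((fn_inc 1 _ _).2 (by simp [Nat.add_assoc]))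
    refine ⟨_, _, h5 n, _, (hp _ _).2 rfl, ?_, rfl⟩
    have h6 := Nat.Partrec.Code.evaln_mono (Nat.le_add_left n (ρ 1)) hx
    simp [h4, h0, Option.mem_def.1 h6]

theorem exists_prog (k : ℕ) {K : Set (List ℕ)} (hk : ∀ w ∈ K, ∀ c ∈ w, c < k)
    (hK : REPred (· ∈ K)) : ∃ P : Prog k, ∀ w, (∀ (ρ : ℕ → ℕ) (c : Fin k),
      P.den ([c.1], fun r => if r = 0 then encode [c.1] else 0) (w, ρ) → w ∈ K) ∧
      (w ∈ K → w ≠ [] → ∃ (ρ : ℕ → ℕ) (c : Fin k),
        P.den ([c.1], fun r => if r = 0 then encode [c.1] else 0) (w, ρ)) := by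
  obtain ⟨B, h1, h2⟩ := exists_body k
  obtain ⟨Q, hQ⟩ := exists_test k hK
  have h3 : ∀ x y, Relation.ReflTransGen B.den x y → x.2 0 = encode x.1 → y.2 0 = encode y.1 :=
    fun x y h h0 => by
      induction h with
      | refl => exact h0
      | tail _ h ih => exact h1 _ _ h ih
  have h4 : ∀ v : List ℕ, (∀ c ∈ v, c < k) → ∀ x : Cfg,
      ∃ ρ, Relation.ReflTransGen B.den x (x.1 ++ v, ρ) := fun v => by
    induction v with
    | nil => exact fun _ x => ⟨x.2, by simpa using Relation.ReflTransGen.refl⟩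
    | cons c v ih =>
      intro hv x
      obtain ⟨ρ, h⟩ := h2 x ⟨c, hv c List.mem_cons_self⟩
      obtain ⟨ρ', h'⟩ := ih (fun d hd => hv d (List.mem_cons_of_mem _ hd)) (x.1 ++ [c], ρ)
      exact ⟨ρ', .head h (by simpa using h')⟩
  refine ⟨.seq (.star B) Q, fun w => ⟨?_, fun hw hn => ?_⟩⟩
  · rintro ρ c ⟨⟨u, ρ'⟩, h5, h6⟩
    obtain ⟨h7, h8⟩ := (hQ u ρ' (h3 _ _ h5 rfl)).1 _ h6
    exact (show w = u from h7) ▸ h8
  · obtain ⟨c, v, rfl⟩ := List.exists_cons_of_ne_nil hn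
    obtain ⟨ρ, h5⟩ := h4 v (fun d hd => hk _ hw d (List.mem_cons_of_mem _ hd))
      ([c], fun r => if r = 0 then encode [c] else 0)
    obtain ⟨ρ', h6⟩ := (hQ (c :: v) ρ (h3 _ _ h5 rfl)).2 hw
    exact ⟨ρ', ⟨c, hk _ hw c List.mem_cons_self⟩, _, h5, h6⟩

end Pool.Agent.P.MP_767d8d_lc
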