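import Pool.Agent.P.MP_767d8d_lc.Defs

/-! The languages of two-component even matrix grammars are recursively enumerable. -/

namespace Pool.Agent.P.MP_767d8d_lc

open Relation

theorem re_exists {α γ : Type} [Primcodable α] [Primcodable γ] {P : α → γ → Prop}
    (hP : PrimrecRel P) : REPred fun a => ∃ c, P a c := by
  classical
  have h1 : Primrec₂ fun (a : α) (n : ℕ) =>
      (Encodable.decode (α := γ) n).bind fun c => if P a c then some () else none :=
    Primrec.option_bind (Primrec.decode.comp Primrec.snd)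
      (Primrec.ite (hP.comp (Primrec.fst.comp Primrec.fst) Primrec.snd) (Primrec.const _)
        (Primrec.const _))
  refine (Partrec.rfindOpt h1.to_comp).dom_re.of_eq fun a => ?_
  rw [Nat.rfindOpt_dom]
  constructor
  · rintro ⟨n, u, h⟩
    obtain ⟨c, -, h⟩ := Option.mem_bind_iff.1 h
    by_cases hc : P a c
    · exact ⟨c, hc⟩
    · simp [hc] at h
  · rintro ⟨c, hc⟩
    exact ⟨Encodable.encode c, (), by simp [hc]⟩

theorem re_rtg {α β γ : Type} [Primcodable α] [Primcodable β] [Primcodable γ]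
    {P : α × α × γ → Prop} (hP : PrimrecPred P) {R : α → α → Prop}
    (hR : ∀ x y, R x y ↔ ∃ c, P (x, y, c)) (s : α) {g : β → α} (hg : Primrec g) :
    REPred fun b => ReflTransGen R s (g b) := by
  classical
  let F : Option α → α × γ → Option α := fun o z =>
    o.bind fun x => if P (x, z) then some z.1 else none
  have hF : Primrec fun l : List (α × γ) => l.foldl F (some s) :=
    Primrec.list_foldl (f := id) (g := fun _ => some s)
      (h := fun (_ : List (α × γ)) (q : Option α × (α × γ)) => F q.1 q.2) Primrec.id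
      (Primrec.const _)
      (Primrec.option_bind (Primrec.fst.comp Primrec.snd)
        (Primrec.ite (hP.comp (Primrec.snd.pair (Primrec.snd.comp (Primrec.snd.comp Primrec.fst))))
          (Primrec.option_some.comp
            (Primrec.fst.comp (Primrec.snd.comp (Primrec.snd.comp Primrec.fst))))
          (Primrec.const _)))
  have h : PrimrecRel fun (b : β) (l : List (α × γ)) => l.foldl F (some s) = some (g b) :=
    Primrec.eq.comp (hF.comp Primrec.snd) (Primrec.option_some.comp (hg.comp Primrec.fst))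
  refine (re_exists h).of_eq fun b => ?_
  generalize g b = y
  constructor
  · rintro ⟨l, hl⟩
    induction l using List.reverseRecOn generalizing y with
    | nil =>
      obtain rfl : s = y := by simpa using hl
      exact .refl
    | append_singleton l z ih =>
      rw [List.foldl_append] at hl
      obtain ⟨x, hx, h⟩ := Option.bind_eq_some_iff.1 hl
      by_cases hc : P (x, z)
      · obtain rfl : z.1 = y := by simpa [hc] using h
        exact (ih x hx).tail ((hR _ _).2 ⟨z.2, hc⟩)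
      · simp [hc] at h
  · intro hy
    induction hy with
    | refl => exact ⟨[], rfl⟩
    | @tail x y _ h ih =>
      obtain ⟨l, hl⟩ := ih
      obtain ⟨c, hc⟩ := (hR _ _).1 h
      exact ⟨l ++ [(y, c)], by simp [List.foldl_append, hl, F, hc]⟩

theorem re_mem_finset {α : Type} [Primcodable α] (s : Finset α) : PrimrecPred (· ∈ s) := by
  classical
  induction s using Finset.induction_on with
  | empty => exact (Primrec.eq.comp Primrec.id Primrec.id).not.of_eq (by simp)
  | insert a s _ ih =>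
    exact ((Primrec.eq.comp Primrec.id (Primrec.const a)).or ih).of_eq (by simp)

theorem re_mem_list {α : Type} [Primcodable α] : PrimrecRel fun (l : List α) (a : α) => a ∈ l :=
  (PrimrecRel.exists_mem_list Primrec.eq).of_eq (by simp)

def symbEquiv (k₁ k₂ : ℕ) : Symb k₁ k₂ ≃ Option (Fin k₁ ⊕ Fin k₂ ⊕ ℕ) where
  toFun
    | .start => none
    | .nt₁ A => some (.inl A)
    | .nt₂ A => some (.inr (.inl A))
    | .ter a => some (.inr (.inr a))
  invFun
    | none => .start
    | some (.inl A) => .nt₁ A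
    | some (.inr (.inl A)) => .nt₂ A
    | some (.inr (.inr a)) => .ter a
  left_inv := by rintro (_ | _ | _ | _) <;> rfl
  right_inv := by rintro (_ | _ | _ | _) <;> rfl

theorem re_genLang (G : EMG) (j : Fin 2) : REPred fun w => w ∈ genLang G j := by
  classical
  let _ : Primcodable (Symb G.k₁ G.k₂) := Primcodable.ofEquiv _ (symbEquiv G.k₁ G.k₂)
  have hter : Primrec (Symb.ter : ℕ → Symb G.k₁ G.k₂) :=
    (Primrec.of_equiv_symm (e := symbEquiv G.k₁ G.k₂)).comp
      (Primrec.option_some.comp (Primrec.sumInr.comp Primrec.sumInr))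
  have h1 : Primrec (emb₁ : _ → List (Symb G.k₁ G.k₂)) :=
    Primrec.list_map Primrec.id
      ((Primrec.sumCasesOn Primrec.snd ((Primrec.dom_finite Symb.nt₁).comp Primrec.snd).to₂
        (hter.comp Primrec.snd).to₂).of_eq (by rintro ⟨_, _ | _⟩ <;> rfl))
  have h2 : Primrec (emb₂ : _ → List (Symb G.k₁ G.k₂)) :=
    Primrec.list_map Primrec.id
      ((Primrec.sumCasesOn Primrec.snd ((Primrec.dom_finite Symb.nt₂).comp Primrec.snd).to₂
        (hter.comp Primrec.snd).to₂).of_eq (by rintro ⟨_, _ | _⟩ <;> rfl))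
  have h3 : Primrec fun w : List ℕ => w.map (Symb.ter : ℕ → Symb G.k₁ G.k₂) :=
    Primrec.list_map Primrec.id (hter.comp Primrec.snd).to₂
  let W₁ := List (Fin G.k₁ ⊕ ℕ)
  let W₂ := List (Fin G.k₂ ⊕ ℕ)
  let X := List (Symb G.k₁ G.k₂)
  let S : Finset X := G.termRules.image (fun v => v.map Symb.ter) ∪
    G.startRules.image fun r => emb₁ r.1 ++ emb₂ r.2
  let P : X × X × ((Fin G.k₁ × Fin G.k₂) × W₁ × W₂) × (W₁ × W₁) × W₂ × W₂ → Prop := fun z =>
    z.2.2.1 ∈ G.matRules ∧
      z.1 = emb₁ (z.2.2.2.1.1 ++ [Sum.inl z.2.2.1.1.1] ++ z.2.2.2.1.2) ++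
        emb₂ (z.2.2.2.2.1 ++ [Sum.inl z.2.2.1.1.2] ++ z.2.2.2.2.2) ∧
      z.2.1 = emb₁ (z.2.2.2.1.1 ++ z.2.2.1.2.1 ++ z.2.2.2.1.2) ++
        emb₂ (z.2.2.2.2.1 ++ z.2.2.1.2.2 ++ z.2.2.2.2.2) ∧
      (j = 1 → Sum.inl z.2.2.1.1.1 ∉ z.2.2.2.1.1 ∧ Sum.inl z.2.2.1.1.2 ∉ z.2.2.2.2.1)
  have hP : PrimrecPred P := by
    have hr : Primrec fun z : X × X × ((Fin G.k₁ × Fin G.k₂) × W₁ × W₂) × (W₁ × W₁) × W₂ × W₂ =>
      z.2.2.1 := Primrec.fst.comp (Primrec.snd.comp Primrec.snd)
    have hu : Primrec fun z : X × X × ((Fin G.k₁ × Fin G.k₂) × W₁ × W₂) × (W₁ × W₁) × W₂ × W₂ =>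
      z.2.2.2 := Primrec.snd.comp (Primrec.snd.comp Primrec.snd)
    have u1 := Primrec.fst.comp (Primrec.fst.comp hu)
    have w1 := Primrec.snd.comp (Primrec.fst.comp hu)
    have u2 := Primrec.fst.comp (Primrec.snd.comp hu)
    have w2 := Primrec.snd.comp (Primrec.snd.comp hu)
    have a1 := (Primrec.sumInl (β := ℕ)).comp (Primrec.fst.comp (Primrec.fst.comp hr))
    have a2 := (Primrec.sumInl (β := ℕ)).comp (Primrec.snd.comp (Primrec.fst.comp hr))
    have v1 := Primrec.fst.comp (Primrec.snd.comp hr)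
    have v2 := Primrec.snd.comp (Primrec.snd.comp hr)
    refine ((re_mem_finset G.matRules).comp hr).and (PrimrecPred.and ?_ (PrimrecPred.and ?_ ?_))
    · exact Primrec.eq.comp Primrec.fst (Primrec.list_append.comp
        (h1.comp (Primrec.list_append.comp (Primrec.list_append.comp u1
          (Primrec.list_cons.comp a1 (Primrec.const []))) w1))
        (h2.comp (Primrec.list_append.comp (Primrec.list_append.comp u2
          (Primrec.list_cons.comp a2 (Primrec.const []))) w2)))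
    · exact Primrec.eq.comp (Primrec.fst.comp Primrec.snd) (Primrec.list_append.comp
        (h1.comp (Primrec.list_append.comp (Primrec.list_append.comp u1 v1) w1))
        (h2.comp (Primrec.list_append.comp (Primrec.list_append.comp u2 v2) w2)))
    · by_cases hj : j = 1
      · exact ((re_mem_list.comp u1 a1).not.and (re_mem_list.comp u2 a2).not).of_eq (by simp [hj])
      · exact (Primrec.eq.comp u1 u1).of_eq (by simp [hj])
  let Q : X × X × Option (((Fin G.k₁ × Fin G.k₂) × W₁ × W₂) × (W₁ × W₁) × W₂ × W₂) → Prop :=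
    fun z => (z.1 = [Symb.start] ∧ z.2.1 ∈ S) ∨ ∃ c ∈ z.2.2.toList, P (z.1, z.2.1, c)
  have hQ : PrimrecPred Q := by
    refine ((Primrec.eq.comp Primrec.fst (Primrec.const _)).and
      ((re_mem_finset S).comp (Primrec.fst.comp Primrec.snd))).or ?_
    have h : PrimrecRel fun (c : ((Fin G.k₁ × Fin G.k₂) × W₁ × W₂) × (W₁ × W₁) × W₂ × W₂)
        (x : X × X) => P (x.1, x.2, c) :=
      hP.comp ((Primrec.fst.comp Primrec.snd).pair
        ((Primrec.snd.comp Primrec.snd).pair Primrec.fst))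
    exact h.exists_mem_list.comp (Primrec.optionToList.comp (Primrec.snd.comp Primrec.snd))
      (Primrec.fst.pair (Primrec.fst.comp Primrec.snd))
  refine re_rtg hQ (fun x y => ?_) [Symb.start] h3
  simp only [Q, S, P, Rewrites, Finset.mem_union, Finset.mem_image, Option.mem_toList]
  constructor
  · rintro (⟨v, hv, rfl, rfl⟩ | ⟨r, hr, rfl, rfl⟩ | ⟨r, hr, u₁, w₁, u₂, w₂, h⟩)
    · exact ⟨none, Or.inl ⟨rfl, Or.inl ⟨v, hv, rfl⟩⟩⟩
    · exact ⟨none, Or.inl ⟨rfl, Or.inr ⟨r, hr, rfl⟩⟩⟩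
    · exact ⟨some (r, (u₁, w₁), u₂, w₂), Or.inr ⟨_, rfl, hr, h⟩⟩
  · rintro ⟨_, ⟨rfl, ⟨v, hv, rfl⟩ | ⟨r, hr, rfl⟩⟩ | ⟨⟨r, ⟨u₁, w₁⟩, u₂, w₂⟩, -, hr, h⟩⟩
    · exact Or.inl ⟨v, hv, rfl, rfl⟩
    · exact Or.inr (Or.inl ⟨r, hr, rfl, rfl⟩)
    · exact Or.inr (Or.inr ⟨r, hr, u₁, w₁, u₂, w₂, h⟩)

end Pool.Agent.P.MP_767d8d_lc
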