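import Pool.Agent.P.MP_767d8d_lc.Mode1

open Pool.Agent.P.MP_767d8d_lc in
theorem Pool.Agent.P.MP_767d8d_lc.WithdrawnModesDiffer.result :
    ∃ G : EMG, ∀ G' : EMG, genLang G' 0 ≠ genLang G 1 :=
  ⟨G₁, separation⟩
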